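import Pool.Agent.Lib.MP_a8dae7_an.FP.Spec

/-!
# MP_a8dae7_an, module CEL: the number of points in a cell
-/

open scoped BigOperators

namespace Pool.Agent.Lib.MP_a8dae7_an.FP.CELM

theorem abs_le_one {n : ℕ} (v : Fin n → ℝ) (h : ∑ i, v i ^ 2 = 1) (i : Fin n) : |v i| ≤ 1 := by
  rw [← sq_le_one_iff_abs_le_one, ← h]
  exact Finset.single_le_sum (f := fun i => v i ^ 2) (fun j _ => sq_nonneg _) (Finset.mem_univ i)

end CELM

open CELM in
/-- the number of points of a sphere in a cell -/
theorem specCEL (hDET : SpecDET) (hCNT : SpecCNT) : SpecCEL := by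
  intro k hk
  obtain ⟨C, hC, hN⟩ := hCNT k hk
  refine ⟨C, hC, ?_⟩
  intro ν e hfr T lam hT s hs hy ht
  by_contra hcon
  push Not at hcon
  obtain ⟨N, hNle, hφ⟩ := hN T hT
  have hcard : N ≤ s.card := by
    have : (N : ℝ) ≤ (s.card : ℝ) := hNle.trans hcon.le
    exact_mod_cast this
  have hN0 : 0 < N := by
    rcases Nat.eq_zero_or_pos N with h | h
    · subst h
      have := hφ (fun p => p.elim0) (fun p => p.elim0)
      simp at this
    · exact h
  -- the points
  set x : Fin N → (Fin (k + 1) → ℤ) := fun p => ((s.equivFin.symm (Fin.castLE hcard p)) : Fin (k + 1) → ℤ) with hx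
  have hxs : ∀ p, x p ∈ s := fun p => (s.equivFin.symm (Fin.castLE hcard p)).2
  have hinj : Function.Injective x := by
    intro p p' h
    have h1 := Subtype.ext h
    have h2 := s.equivFin.symm.injective h1
    exact Fin.castLE_injective hcard h2
  set x0 : Fin (k + 1) → ℤ := x ⟨0, hN0⟩ with hx0
  have hx0s : x0 ∈ s := hxs _
  set ξ : Fin (k + 1) → Fin N → ℤ := fun i p => x p i - x0 i with hξ
  set t : Fin N → ℝ := fun p => ∑ i, ν i * (ξ i p : ℝ) with ht'
  set y : Fin k → Fin N → ℝ := fun j p => ∑ i, e j i * (ξ i p : ℝ) with hy'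
  have hcomp : ∀ i p, (ξ i p : ℝ) = ν i * t p + ∑ j, e j i * y j p := fun i p =>
    hfr.comp (fun i => (ξ i p : ℝ)) i
  have hk1 : (1 : ℝ) ≤ k := by exact_mod_cast hk
  obtain ⟨φ, hφi, h1⟩ := hDET k hk N t y ξ ν e (-2 * ∑ i, ν i * (x0 i : ℝ)) (fun j => -2 * ∑ i, e j i * (x0 i : ℝ))
    T (1 / (6 * (k : ℝ))) (abs_le_one ν hfr.nn)
    (fun j => abs_le_one (e j) (by
      have := hfr.ee j j
      rw [if_pos rfl] at this
      rw [← this]
      exact Finset.sum_congr rfl fun i _ => sq _)) hcomp (fun p => rfl) (fun j p => rfl)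
    (by
      intro p
      have hp := hfr.pars (fun i => (ξ i p : ℝ))
      have e1 : ∑ i, (ξ i p : ℝ) ^ 2 = -2 * ∑ i, (ξ i p : ℝ) * (x0 i : ℝ) := by
        have a1 := hs (x p) (hxs p)
        have a2 := hs x0 hx0s
        have a3 : ∑ i, (ξ i p : ℝ) ^ 2 + 2 * ∑ i, (ξ i p : ℝ) * (x0 i : ℝ)
            = ∑ i, (x p i : ℝ) ^ 2 - ∑ i, (x0 i : ℝ) ^ 2 := by
          rw [Finset.mul_sum, ← Finset.sum_add_distrib, ← Finset.sum_sub_distrib]
          refine Finset.sum_congr rfl fun i _ => ?_
          simp only [hξ]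
          push_cast
          ring
        rw [a1, a2] at a3
        linarith
      have e2 : ∑ i, (ξ i p : ℝ) * (x0 i : ℝ)
          = t p * (∑ i, ν i * (x0 i : ℝ)) + ∑ j, y j p * ∑ i, e j i * (x0 i : ℝ) := by
        calc ∑ i, (ξ i p : ℝ) * (x0 i : ℝ) = ∑ i, (ν i * t p + ∑ j, e j i * y j p) * (x0 i : ℝ) :=
              Finset.sum_congr rfl fun i _ => by rw [← hcomp i p]
          _ = ∑ i, t p * (ν i * (x0 i : ℝ)) + ∑ i, ∑ j, y j p * (e j i * (x0 i : ℝ)) := by
              rw [← Finset.sum_add_distrib]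
              refine Finset.sum_congr rfl fun i _ => ?_
              rw [add_mul, Finset.sum_mul]
              congr 1
              · ring
              · exact Finset.sum_congr rfl fun j _ => by ring
          _ = _ := by
              rw [Finset.mul_sum, Finset.sum_comm]
              congr 1
              exact Finset.sum_congr rfl fun j _ => (Finset.mul_sum _ _ _).symm
      have e3 : ∑ i, (ξ i p : ℝ) ^ 2 = t p ^ 2 + ∑ j, y j p ^ 2 := hp
      have e4 : ∑ j, (-2 * ∑ i, e j i * (x0 i : ℝ)) * y j p = -2 * ∑ j, y j p * ∑ i, e j i * (x0 i : ℝ) := by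
        rw [Finset.mul_sum]
        exact Finset.sum_congr rfl fun j _ => by ring
      rw [e4]
      rw [e1, e2] at e3
      linarith)
    (by
      intro p p' h
      apply hinj
      funext i
      have := h i
      simp only [hξ] at this
      linarith)
    hT (by positivity) (by
      rw [div_le_one (by positivity)]
      linarith)
    (by
      intro j p
      have := hy (x p) (hxs p) x0 hx0s j
      simpa [hy', hξ] using this)
    (by
      intro p
      have := ht (x p) (hxs p) x0 hx0s
      simpa [ht', hξ] using this)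
  have h2 := hφ φ hφi
  have h3 : 2 * (k : ℝ) * (1 / (6 * (k : ℝ))) = 1 / 3 := by
    field_simp
    norm_num
  rw [h3] at h1
  linarith

end Pool.Agent.Lib.MP_a8dae7_an.FP
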