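import Pool.Agent.Lib.MP_a8dae7_an.FP.Spec

/-!
# MP_a8dae7_an, module FRM: the orthonormal frame of an affine isometry
-/

open scoped BigOperators

namespace Pool.Agent.Lib.MP_a8dae7_an.FP.FRMM

variable {k : ℕ}

theorem inner_eq {n : ℕ} (x y : EuclideanSpace ℝ (Fin n)) : inner ℝ x y = ∑ i, x i * y i := by
  rw [PiLp.inner_apply]
  refine Finset.sum_congr rfl fun i _ => ?_
  simp [mul_comm]

/-- the family: `ν` and the images of the standard basis -/
noncomputable def fam (L : EuclideanSpace ℝ (Fin k) →ₗᵢ[ℝ] EuclideanSpace ℝ (Fin (k + 1)))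
    (ν : EuclideanSpace ℝ (Fin (k + 1))) : Option (Fin k) → EuclideanSpace ℝ (Fin (k + 1))
  | none => ν
  | some j => L (EuclideanSpace.single j 1)

theorem orth (L : EuclideanSpace ℝ (Fin k) →ₗᵢ[ℝ] EuclideanSpace ℝ (Fin (k + 1)))
    (ν : EuclideanSpace ℝ (Fin (k + 1))) (hν : ‖ν‖ = 1) (h : ∀ v, inner ℝ ν (L v) = 0) :
    Orthonormal ℝ (fam L ν) := by
  constructor
  · rintro (_ | j)
    · exact hν
    · simp [fam]
  · rintro (_ | i) (_ | j) hij
    · exact absurd rfl hij
    · exact h _
    · change inner ℝ (L (EuclideanSpace.single i 1)) ν = 0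
      rw [real_inner_comm]
      exact h _
    · change inner ℝ (L (EuclideanSpace.single i 1)) (L (EuclideanSpace.single j 1)) = 0
      rw [LinearIsometry.inner_map_map]
      have hne : i ≠ j := fun e => hij (congrArg some e)
      simp [EuclideanSpace.inner_single_left, hne]

/-- the orthonormal basis -/
noncomputable def bas (L : EuclideanSpace ℝ (Fin k) →ₗᵢ[ℝ] EuclideanSpace ℝ (Fin (k + 1)))
    (ν : EuclideanSpace ℝ (Fin (k + 1))) (hν : ‖ν‖ = 1) (h : ∀ v, inner ℝ ν (L v) = 0) :
    OrthonormalBasis (Option (Fin k)) ℝ (EuclideanSpace ℝ (Fin (k + 1))) :=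
  (basisOfOrthonormalOfCardEqFinrank (orth L ν hν h) (by simp)).toOrthonormalBasis (by
    rw [coe_basisOfOrthonormalOfCardEqFinrank]
    exact orth L ν hν h)

theorem bas_apply (L : EuclideanSpace ℝ (Fin k) →ₗᵢ[ℝ] EuclideanSpace ℝ (Fin (k + 1)))
    (ν : EuclideanSpace ℝ (Fin (k + 1))) (hν : ‖ν‖ = 1) (h : ∀ v, inner ℝ ν (L v) = 0) (o : Option (Fin k)) :
    bas L ν hν h o = fam L ν o := by
  simp [bas, coe_basisOfOrthonormalOfCardEqFinrank]

end FRMM

open FRMM in
/-- the frame of an affine isometry -/
theorem specFRM : SpecFRM := by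
  intro k A ν hν h
  set L := A.linearIsometry with hL
  set b := bas L ν hν h with hb
  refine ⟨fun j i => L (EuclideanSpace.single j 1) i, ?_, ?_⟩
  · have ho := orth L ν hν h
    have key : ∀ x : Fin (k + 1) → ℝ, ∑ o, inner ℝ (b o) (WithLp.toLp 2 x) • b o = WithLp.toLp 2 x :=
      fun x => b.sum_repr' _
    have i0 : ∀ x : Fin (k + 1) → ℝ, inner ℝ (b none) (WithLp.toLp 2 x) = ∑ l, ν l * x l := by
      intro x
      rw [hb, bas_apply, inner_eq]
      rfl
    have i1 : ∀ (x : Fin (k + 1) → ℝ) (j : Fin k), inner ℝ (b (some j)) (WithLp.toLp 2 x)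
        = ∑ l, L (EuclideanSpace.single j 1) l * x l := by
      intro x j
      rw [hb, bas_apply, inner_eq]
      rfl
    refine ⟨?_, ?_, ?_, ?_, ?_⟩
    · have := real_inner_self_eq_norm_sq ν
      rw [inner_eq, hν, one_pow] at this
      exact (Finset.sum_congr rfl fun i _ => sq _).trans this
    · intro j j'
      have := (orthonormal_iff_ite.1 ho) (some j) (some j')
      simp only [fam, Option.some.injEq] at this
      rw [inner_eq] at this
      exact this
    · intro j
      have := h (EuclideanSpace.single j 1)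
      rw [inner_eq] at this
      exact this
    · intro x i
      have h1 := congrArg (fun v : EuclideanSpace ℝ (Fin (k + 1)) => v i) (key x)
      simp only [Fintype.sum_option] at h1
      rw [i0 x] at h1
      simp only [i1] at h1
      rw [hb] at h1
      simp only [bas_apply, fam] at h1
      simp only [PiLp.add_apply, PiLp.smul_apply, smul_eq_mul, WithLp.ofLp_sum, Finset.sum_apply] at h1
      rw [← h1]
      simp [mul_comm]
    · intro x
      have h1 := b.sum_sq_norm_inner_right (WithLp.toLp 2 x)
      simp only [Fintype.sum_option] at h1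
      rw [i0 x] at h1
      simp only [i1, Real.norm_eq_abs, sq_abs] at h1
      rw [h1, EuclideanSpace.norm_eq, Real.sq_sqrt (Finset.sum_nonneg fun i _ => by positivity)]
      simp
  · intro z n
    have h1 : A z = L z + A 0 := by
      have := A.map_vadd (0 : EuclideanSpace ℝ (Fin k)) z
      simpa [hL] using this
    have h2 : L z = ∑ j, z j • L (EuclideanSpace.single j 1) := by
      have hz : z = ∑ j, z j • EuclideanSpace.single j (1 : ℝ) := by
        ext i
        simp [WithLp.ofLp_sum, Finset.sum_apply, Pi.single_apply]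
      conv_lhs => rw [hz]
      simp [map_sum]
    have h3 : ∀ i, (A z) i = (A 0) i + ∑ j, z j * L (EuclideanSpace.single j 1) i := by
      intro i
      rw [h1, h2]
      simp [WithLp.ofLp_sum, Finset.sum_apply, add_comm]
    simp only [h3, mul_add, Finset.sum_add_distrib]
    congr 1
    simp only [Finset.mul_sum, Finset.sum_mul]
    rw [Finset.sum_comm]
    refine Finset.sum_congr rfl fun j _ => Finset.sum_congr rfl fun i _ => by ring

end Pool.Agent.Lib.MP_a8dae7_an.FP
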