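import Pool.Agent.Lib.MP_a8dae7_an.FP.Spec

/-!
# MP_a8dae7_an, module GA1: the Gaussian majorant
-/

open scoped BigOperators
open MeasureTheory

namespace Pool.Agent.Lib.MP_a8dae7_an.FP.GA1M

variable {k : ℕ}

theorem inner_eq (x y : EuclideanSpace ℝ (Fin k)) : inner ℝ x y = ∑ i, x i * y i := by
  rw [PiLp.inner_apply]
  refine Finset.sum_congr rfl fun i _ => ?_
  simp [mul_comm]

/-- the expanded square with the Gaussian weight -/
theorem expand {ι : Type} (s : Finset ι) (Y : ι → EuclideanSpace ℝ (Fin k)) (a : ι → ℂ) (ρ : ℝ)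
    (z : EuclideanSpace ℝ (Fin k)) :
    (((Real.exp (-(‖z‖ ^ 2 * (ρ ^ 2)⁻¹)) *
      ‖∑ n ∈ s, a n * Complex.exp (Complex.I * ((∑ j, Y n j * z j : ℝ) : ℂ))‖ ^ 2 : ℝ)) : ℂ)
      = ∑ n ∈ s, ∑ m ∈ s, (a n * (starRingEnd ℂ) (a m)) *
        Complex.exp (-(((ρ ^ 2)⁻¹ : ℝ) : ℂ) * ‖z‖ ^ 2 + Complex.I * (inner ℝ (Y n - Y m) z : ℝ)) := by
  rw [Complex.ofReal_mul, Complex.ofReal_pow, ← Complex.mul_conj', map_sum, Finset.sum_mul_sum,
    Finset.mul_sum]
  refine Finset.sum_congr rfl fun n _ => ?_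
  rw [Finset.mul_sum]
  refine Finset.sum_congr rfl fun m _ => ?_
  rw [map_mul, ← Complex.exp_conj, map_mul, Complex.conj_I, Complex.conj_ofReal, Complex.ofReal_exp]
  have h : (inner ℝ (Y n - Y m) z : ℝ) = (∑ j, Y n j * z j) - ∑ j, Y m j * z j := by
    rw [inner_sub_left, inner_eq, inner_eq]
  have e : Complex.exp (-(((ρ ^ 2)⁻¹ : ℝ) : ℂ) * ‖z‖ ^ 2 + Complex.I * (inner ℝ (Y n - Y m) z : ℝ))
      = Complex.exp ((-(‖z‖ ^ 2 * (ρ ^ 2)⁻¹) : ℝ) : ℂ) *
        (Complex.exp (Complex.I * ((∑ j, Y n j * z j : ℝ) : ℂ)) *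
          Complex.exp (-Complex.I * ((∑ j, Y m j * z j : ℝ) : ℂ))) := by
    rw [← Complex.exp_add, ← Complex.exp_add, h]
    congr 1
    push_cast
    ring
  rw [e]
  ring

end GA1M

open GA1M in
/-- the Gaussian majorant -/
theorem specGA1 : SpecGA1 := by
  intro k
  refine ⟨Real.exp 1 * Real.pi ^ ((k : ℝ) / 2), by positivity, ?_⟩
  intro ι s Y a ρ hρ
  have hρ0 : 0 < ρ := by linarith
  set f : EuclideanSpace ℝ (Fin k) → ℝ := fun z =>
    ‖∑ n ∈ s, a n * Complex.exp (Complex.I * ((∑ j, Y n j * z j : ℝ) : ℂ))‖ ^ 2 with hf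
  set b : ℝ := (ρ ^ 2)⁻¹ with hb
  have hb0 : 0 < b := by positivity
  set F : EuclideanSpace ℝ (Fin k) → ℝ := fun z => Real.exp (-(‖z‖ ^ 2 * b)) * f z with hF
  have hre : 0 < ((b : ℝ) : ℂ).re := by simpa using hb0
  have hterm : ∀ n m, Integrable fun z : EuclideanSpace ℝ (Fin k) =>
      (a n * (starRingEnd ℂ) (a m)) *
        Complex.exp (-((b : ℝ) : ℂ) * ‖z‖ ^ 2 + Complex.I * (inner ℝ (Y n - Y m) z : ℝ)) := fun n m =>
    (GaussianFourier.integrable_cexp_neg_mul_sq_norm_add hre Complex.I (Y n - Y m)).const_mul _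
  have hFc : (fun z => ((F z : ℝ) : ℂ)) = fun z => ∑ n ∈ s, ∑ m ∈ s, (a n * (starRingEnd ℂ) (a m)) *
        Complex.exp (-((b : ℝ) : ℂ) * ‖z‖ ^ 2 + Complex.I * (inner ℝ (Y n - Y m) z : ℝ)) := by
    funext z
    exact expand s Y a ρ z
  have hFi : Integrable F := by
    have h1 : Integrable fun z => ((F z : ℝ) : ℂ) := by
      rw [hFc]
      exact integrable_finsetSum _ fun n _ => integrable_finsetSum _ fun m _ => hterm n m
    have h2 := h1.re
    simpa using h2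
  have hf0 : ∀ z, 0 ≤ f z := fun z => by positivity
  have hF0 : ∀ z, 0 ≤ F z := fun z => by positivity
  -- on the ball
  have hle : ∀ z ∈ Metric.closedBall (0 : EuclideanSpace ℝ (Fin k)) ρ, f z ≤ Real.exp 1 * F z := by
    intro z hz
    have hz' : ‖z‖ ≤ ρ := by simpa using hz
    have h1 : ‖z‖ ^ 2 * b ≤ 1 := by
      rw [hb, ← div_eq_mul_inv, div_le_one (by positivity)]
      exact pow_le_pow_left₀ (norm_nonneg z) hz' 2
    have h2 : 1 ≤ Real.exp 1 * Real.exp (-(‖z‖ ^ 2 * b)) := by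
      rw [← Real.exp_add]
      exact Real.one_le_exp (by linarith)
    calc f z = 1 * f z := (one_mul _).symm
      _ ≤ (Real.exp 1 * Real.exp (-(‖z‖ ^ 2 * b))) * f z := mul_le_mul_of_nonneg_right h2 (hf0 z)
      _ = Real.exp 1 * F z := by rw [hF]; ring
  have hfc : Continuous f := by
    rw [hf]
    fun_prop
  have s1 : ∫ z in Metric.closedBall (0 : EuclideanSpace ℝ (Fin k)) ρ, f z ≤ Real.exp 1 * ∫ z, F z := by
    calc ∫ z in Metric.closedBall (0 : EuclideanSpace ℝ (Fin k)) ρ, f z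
        ≤ ∫ z in Metric.closedBall (0 : EuclideanSpace ℝ (Fin k)) ρ, Real.exp 1 * F z := by
          refine setIntegral_mono_on ?_ ((hFi.const_mul _).integrableOn) measurableSet_closedBall hle
          exact hfc.continuousOn.integrableOn_compact (isCompact_closedBall _ _)
      _ ≤ ∫ z, Real.exp 1 * F z :=
          setIntegral_le_integral (hFi.const_mul _)
            (Filter.Eventually.of_forall fun z => mul_nonneg (Real.exp_pos _).le (hF0 z))
      _ = Real.exp 1 * ∫ z, F z := integral_const_mul _ _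
  have s2 : ∫ z, F z ≤ Real.pi ^ ((k : ℝ) / 2) * ρ ^ k *
      ∑ n ∈ s, ∑ m ∈ s, ‖a n‖ * ‖a m‖ * Real.exp (-(‖Y n - Y m‖ ^ 2) / 4) := by
    have h0 : ∫ z, F z = ‖((∫ z, F z : ℝ) : ℂ)‖ := by
      rw [Complex.norm_real, Real.norm_of_nonneg (integral_nonneg hF0)]
    rw [h0, ← integral_complex_ofReal, hFc, integral_finsetSum _ fun n _ =>
      integrable_finsetSum _ fun m _ => hterm n m, Finset.mul_sum]
    refine (norm_sum_le _ _).trans (Finset.sum_le_sum fun n _ => ?_)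
    rw [integral_finsetSum _ fun m _ => hterm n m, Finset.mul_sum]
    refine (norm_sum_le _ _).trans (Finset.sum_le_sum fun m _ => ?_)
    rw [integral_const_mul, GaussianFourier.integral_cexp_neg_mul_sq_norm_add hre, norm_mul, norm_mul,
      norm_mul, RCLike.norm_conj]
    have e1 : ‖((Real.pi : ℂ) / ((b : ℝ) : ℂ)) ^ ((Module.finrank ℝ (EuclideanSpace ℝ (Fin k)) : ℂ) / 2)‖
        = Real.pi ^ ((k : ℝ) / 2) * ρ ^ k := by
      have c1 : (Real.pi : ℂ) / ((b : ℝ) : ℂ) = ((Real.pi * ρ ^ 2 : ℝ) : ℂ) := by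
        rw [hb]
        push_cast
        rw [div_inv_eq_mul]
      have c2 : ((Module.finrank ℝ (EuclideanSpace ℝ (Fin k)) : ℂ) / 2) = (((k : ℝ) / 2 : ℝ) : ℂ) := by
        rw [finrank_euclideanSpace_fin]
        push_cast
        rfl
      rw [c1, c2, Complex.norm_cpow_eq_rpow_re_of_pos (by positivity), Complex.ofReal_re,
        Real.mul_rpow (by positivity) (by positivity)]
      congr 1
      rw [← Real.rpow_natCast ρ 2, ← Real.rpow_mul hρ0.le, ← Real.rpow_natCast ρ k]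
      congr 1
      push_cast
      ring
    have e2 : ‖Complex.exp (Complex.I ^ 2 * (‖Y n - Y m‖ : ℂ) ^ 2 / (4 * ((b : ℝ) : ℂ)))‖
        ≤ Real.exp (-(‖Y n - Y m‖ ^ 2) / 4) := by
      have c3 : Complex.I ^ 2 * (‖Y n - Y m‖ : ℂ) ^ 2 / (4 * ((b : ℝ) : ℂ))
          = ((-(‖Y n - Y m‖ ^ 2) / 4 * ρ ^ 2 : ℝ) : ℂ) := by
        rw [hb, Complex.I_sq]
        push_cast
        have : (ρ : ℂ) ≠ 0 := by exact_mod_cast hρ0.ne'
        field_simp
      rw [c3, ← Complex.ofReal_exp, Complex.norm_real, Real.norm_of_nonneg (Real.exp_pos _).le]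
      apply Real.exp_le_exp.2
      have : 0 ≤ ‖Y n - Y m‖ ^ 2 / 4 := by positivity
      nlinarith [one_le_pow₀ hρ (n := 2)]
    rw [e1]
    calc ‖a n‖ * ‖a m‖ * (Real.pi ^ ((k : ℝ) / 2) * ρ ^ k *
          ‖Complex.exp (Complex.I ^ 2 * (‖Y n - Y m‖ : ℂ) ^ 2 / (4 * ((b : ℝ) : ℂ)))‖)
        ≤ ‖a n‖ * ‖a m‖ * (Real.pi ^ ((k : ℝ) / 2) * ρ ^ k * Real.exp (-(‖Y n - Y m‖ ^ 2) / 4)) := by
          gcongr
      _ = Real.pi ^ ((k : ℝ) / 2) * ρ ^ k * (‖a n‖ * ‖a m‖ * Real.exp (-(‖Y n - Y m‖ ^ 2) / 4)) := by ring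
  calc ∫ z in Metric.closedBall (0 : EuclideanSpace ℝ (Fin k)) ρ, f z ≤ Real.exp 1 * ∫ z, F z := s1
    _ ≤ Real.exp 1 * (Real.pi ^ ((k : ℝ) / 2) * ρ ^ k *
      ∑ n ∈ s, ∑ m ∈ s, ‖a n‖ * ‖a m‖ * Real.exp (-(‖Y n - Y m‖ ^ 2) / 4)) :=
        mul_le_mul_of_nonneg_left s2 (Real.exp_pos _).le
    _ = _ := by ring

end Pool.Agent.Lib.MP_a8dae7_an.FP
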