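import Pool.Agent.Lib.MP_a8dae7_an.FP.Spec
import Pool.Agent.Lib.MP_a8dae7_an.FP.CEL
import Pool.Agent.Lib.MP_a8dae7_an.FP.GA1
import Pool.Agent.Lib.MP_a8dae7_an.FP.FRM

section
/-!
# PAR: Parseval on the cube `[0,2π]^d`
-/
open scoped BigOperators
open MeasureTheory

namespace Pool.Agent.Lib.MP_a8dae7_an.FP

namespace PARM

/-- the one dimensional integral -/
theorem int_one (k : ℤ) :
    ∫ x in Set.Icc (0 : ℝ) (2 * Real.pi), Complex.exp (Complex.I * (((k : ℝ) * x : ℝ) : ℂ))
      = if k = 0 then ((2 * Real.pi : ℝ) : ℂ) else 0 := by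
  have h2 : (0 : ℝ) ≤ 2 * Real.pi := by positivity
  rw [integral_Icc_eq_integral_Ioc, ← intervalIntegral.integral_of_le h2]
  split_ifs with hk
  · subst hk
    simp
  · have hc : Complex.I * (k : ℂ) ≠ 0 :=
      mul_ne_zero Complex.I_ne_zero (by exact_mod_cast hk)
    have h := integral_exp_mul_complex (a := 0) (b := 2 * Real.pi) hc
    have h1 : ∀ x : ℝ, Complex.exp (Complex.I * (((k : ℝ) * x : ℝ) : ℂ))
        = Complex.exp (Complex.I * (k : ℂ) * x) := by
      intro x; congr 1; push_cast; ring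
    simp only [h1]
    rw [h]
    have h3 : Complex.exp (Complex.I * (k : ℂ) * ((2 * Real.pi : ℝ) : ℂ)) = 1 := by
      rw [Complex.exp_eq_one_iff]
      exact ⟨k, by push_cast; ring⟩
    rw [h3]
    simp

/-- the integral of a product -/
theorem int_prod (d : ℕ) (k : Fin d → ℤ) :
    ∫ x in Set.pi Set.univ (fun _ : Fin d => Set.Icc (0 : ℝ) (2 * Real.pi)),
        ∏ i, Complex.exp (Complex.I * (((k i : ℝ) * x i : ℝ) : ℂ))
      = if k = 0 then (((2 * Real.pi) ^ d : ℝ) : ℂ) else 0 := by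
  have h0 : (volume : Measure (Fin d → ℝ)).restrict
      (Set.pi Set.univ (fun _ : Fin d => Set.Icc (0 : ℝ) (2 * Real.pi)))
      = Measure.pi fun _ : Fin d => (volume : Measure ℝ).restrict (Set.Icc (0 : ℝ) (2 * Real.pi)) :=
    Measure.restrict_pi_pi _ _
  rw [h0, integral_fintype_prod_eq_prod (𝕜 := ℂ)
    (f := fun i (x : ℝ) => Complex.exp (Complex.I * (((k i : ℝ) * x : ℝ) : ℂ)))]
  simp only [int_one]
  split_ifs with hk
  · subst hk
    simp
  · obtain ⟨i, hi⟩ := Function.ne_iff.1 hk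
    exact Finset.prod_eq_zero (Finset.mem_univ i) (if_neg hi)

/-- expansion of the square -/
theorem sq_eq {d : ℕ} (s : Finset (Fin d → ℤ)) (a : (Fin d → ℤ) → ℂ) (x : Fin d → ℝ) :
    ((‖wave s a x‖ ^ 2 : ℝ) : ℂ) = ∑ n ∈ s, ∑ m ∈ s, a n * (starRingEnd ℂ) (a m) *
      ∏ i, Complex.exp (Complex.I * ((((n - m) i : ℤ) : ℝ) * x i : ℝ)) := by
  have h1 : ((‖wave s a x‖ ^ 2 : ℝ) : ℂ) = wave s a x * (starRingEnd ℂ) (wave s a x) := by
    rw [Complex.mul_conj']; push_cast; rfl
  rw [h1, wave, map_sum, Finset.sum_mul_sum]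
  refine Finset.sum_congr rfl fun n _ => Finset.sum_congr rfl fun m _ => ?_
  rw [map_mul, ← Complex.exp_conj, ← Complex.exp_sum]
  have h2 : ∀ u v p q : ℂ, u * Complex.exp p * (v * Complex.exp q) = u * v * Complex.exp (p + q) := by
    intro u v p q; rw [Complex.exp_add]; ring
  rw [h2]
  congr 2
  rw [map_mul, Complex.conj_I, Complex.conj_ofReal, ← Finset.mul_sum]
  push_cast
  rw [neg_mul, ← sub_eq_add_neg, ← mul_sub, ← Finset.sum_sub_distrib]
  congr 1
  refine Finset.sum_congr rfl fun i _ => ?_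
  simp only [Pi.sub_apply]
  push_cast
  ring

theorem integrable_prod (d : ℕ) (k : Fin d → ℤ) (c : ℂ) :
    IntegrableOn (fun x : Fin d → ℝ => c * ∏ i, Complex.exp (Complex.I * (((k i : ℝ) * x i : ℝ) : ℂ)))
      (Set.pi Set.univ (fun _ : Fin d => Set.Icc (0 : ℝ) (2 * Real.pi))) := by
  apply ContinuousOn.integrableOn_compact
  · exact isCompact_univ_pi fun _ => isCompact_Icc
  · fun_prop

end PARM

open PARM in
theorem specPAR : SpecPAR := by
  intro d s a
  have h : ((∫ x in Set.pi Set.univ (fun _ : Fin d => Set.Icc (0 : ℝ) (2 * Real.pi)),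
      ‖wave s a x‖ ^ 2 : ℝ) : ℂ) = (((2 * Real.pi) ^ d * ∑ n ∈ s, ‖a n‖ ^ 2 : ℝ) : ℂ) := by
    rw [← integral_complex_ofReal]
    simp only [sq_eq]
    rw [integral_finsetSum _ fun n _ => integrable_finsetSum _ fun m _ => integrable_prod d (n - m) _]
    have h1 : ∀ n ∈ s, ∫ x in Set.pi Set.univ (fun _ : Fin d => Set.Icc (0 : ℝ) (2 * Real.pi)),
        ∑ m ∈ s, a n * (starRingEnd ℂ) (a m) *
          ∏ i, Complex.exp (Complex.I * ((((n - m) i : ℤ) : ℝ) * x i : ℝ))
        = (((2 * Real.pi) ^ d : ℝ) : ℂ) * ((‖a n‖ ^ 2 : ℝ) : ℂ) := by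
      intro n hn
      rw [integral_finsetSum _ fun m _ => integrable_prod d (n - m) _]
      simp only [integral_const_mul, int_prod]
      rw [Finset.sum_eq_single n]
      · rw [sub_self, if_pos rfl, Complex.mul_conj']
        push_cast; ring
      · intro m _ hmn
        rw [if_neg (by rwa [sub_eq_zero, eq_comm]), mul_zero]
      · intro h; exact absurd hn h
    rw [Finset.sum_congr rfl h1, ← Finset.mul_sum]
    push_cast
    rfl
  exact_mod_cast h

end Pool.Agent.Lib.MP_a8dae7_an.FP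
end

section
/-!
# MP_a8dae7_an FP, module CNT: counting
-/
open scoped BigOperators

namespace Pool.Agent.Lib.MP_a8dae7_an.FP

namespace CNTM

theorem growth (k : ℕ) : ∃ M : ℝ, ∀ x : ℝ, M ≤ x → 1 ≤ x → 16 * x ^ (2 * k) < Real.exp (x / 2) := by
  have h := (Real.tendsto_exp_div_pow_atTop (2 * k)).eventually_gt_atTop (16 * 2 ^ (2 * k))
  obtain ⟨M, hM⟩ := Filter.eventually_atTop.1 h
  refine ⟨2 * M, fun x hx hx1 => ?_⟩
  have h1 := hM (x / 2) (by linarith)
  have hpos : 0 < (x / 2) ^ (2 * k) := by positivity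
  rw [lt_div_iff₀ hpos] at h1
  have e : 16 * 2 ^ (2 * k) * (x / 2) ^ (2 * k) = 16 * x ^ (2 * k) := by
    rw [div_pow, mul_assoc]
    field_simp
  linarith [e]

theorem card_small {k m N : ℕ} (φ : Fin N → Bool × (Fin k → ℕ)) (hφ : Function.Injective φ) :
    (Finset.univ.filter fun l => gdeg (φ l) < m).card ≤ 2 * m ^ k := by
  have h : (Finset.univ.filter fun l => gdeg (φ l) < m).card ≤
      ((Finset.univ : Finset Bool) ×ˢ Fintype.piFinset (fun _ : Fin k => Finset.range m)).card := by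
    apply Finset.card_le_card_of_injOn φ
    · intro l hl
      have hl' : gdeg (φ l) < m := by simpa using hl
      simp only [Finset.coe_product, Set.mem_prod, Finset.mem_coe, Finset.mem_univ, true_and,
        Fintype.mem_piFinset, Finset.mem_range]
      intro j
      have h1 : (φ l).2 j ≤ ∑ j, (φ l).2 j :=
        Finset.single_le_sum (f := fun j => (φ l).2 j) (fun _ _ => Nat.zero_le _) (Finset.mem_univ j)
      have h2 : ∑ j, (φ l).2 j ≤ gdeg (φ l) := by
        unfold gdeg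
        omega
      omega
    · exact hφ.injOn
  rw [Finset.card_product, Fintype.card_piFinset_const, Finset.card_range] at h
  simpa using h

theorem sum_ge {k m N : ℕ} (hN : N = 4 * m ^ k) (φ : Fin N → Bool × (Fin k → ℕ))
    (hφ : Function.Injective φ) : m * (2 * m ^ k) ≤ ∑ l, gdeg (φ l) := by
  have h1 := card_small (m := m) φ hφ
  have h2 : (Finset.univ.filter fun l => gdeg (φ l) < m).card +
      (Finset.univ.filter fun l => ¬ gdeg (φ l) < m).card = N := by
    rw [Finset.card_filter_add_card_filter_not]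
    simp
  have h3 : m * (Finset.univ.filter fun l => ¬ gdeg (φ l) < m).card ≤ ∑ l, gdeg (φ l) := by
    calc m * (Finset.univ.filter fun l => ¬ gdeg (φ l) < m).card
        = ∑ l ∈ Finset.univ.filter (fun l => ¬ gdeg (φ l) < m), m := by
          rw [Finset.sum_const, smul_eq_mul, mul_comm]
      _ ≤ ∑ l ∈ Finset.univ.filter (fun l => ¬ gdeg (φ l) < m), gdeg (φ l) := by
          apply Finset.sum_le_sum
          intro l hl
          have := (Finset.mem_filter.1 hl).2
          omega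
      _ ≤ ∑ l, gdeg (φ l) :=
          Finset.sum_le_sum_of_subset_of_nonneg (Finset.filter_subset _ _) (fun _ _ _ => Nat.zero_le _)
  have h4 : 2 * m ^ k ≤ (Finset.univ.filter fun l => ¬ gdeg (φ l) < m).card := by omega
  exact (Nat.mul_le_mul_left m h4).trans h3

end CNTM

open CNTM in
/-- CNT -/
theorem specCNT : SpecCNT := by
  intro k _
  obtain ⟨M, hM⟩ := growth k
  obtain ⟨c, hc4, hcM⟩ : ∃ c : ℝ, 4 ≤ c ∧ M ≤ c := ⟨max 4 M, le_max_left _ _, le_max_right _ _⟩
  refine ⟨4 * (c + 1) ^ k, by positivity, fun T hT => ?_⟩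
  have hL1 : 1 ≤ Real.log (2 + T) := by
    rw [Real.le_log_iff_exp_le (by linarith)]
    have := Real.exp_one_lt_d9
    linarith
  set L := Real.log (2 + T) with hL
  set m := ⌈c * L⌉₊ with hm
  have hm1 : c * L ≤ m := Nat.le_ceil _
  have hm2 : (m : ℝ) ≤ c * L + 1 := (Nat.ceil_lt_add_one (by positivity)).le
  have hmc : c ≤ m := by nlinarith
  have hmpos : (1 : ℝ) ≤ m := by linarith
  have hm0 : 0 < m := by
    have : (0 : ℝ) < m := by linarith
    exact_mod_cast this
  obtain ⟨N, hN⟩ : ∃ N : ℕ, N = 4 * m ^ k := ⟨_, rfl⟩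
  refine ⟨N, ?_, ?_⟩
  · rw [hN]
    push_cast
    have h1 : (m : ℝ) ≤ (c + 1) * L := by nlinarith
    have h2 : (m : ℝ) ^ k ≤ ((c + 1) * L) ^ k := pow_le_pow_left₀ (by positivity) h1 k
    rw [mul_pow] at h2
    calc 4 * (m : ℝ) ^ k ≤ 4 * ((c + 1) ^ k * L ^ k) := by linarith
      _ = 4 * (c + 1) ^ k * L ^ k := by ring
  · intro φ hφ
    have hsum := sum_ge (m := m) hN φ hφ
    have hNpos : 0 < N := by rw [hN]; positivity
    have hfac : (N.factorial : ℝ) ≤ (N : ℝ) ^ N := by exact_mod_cast Nat.factorial_le_pow N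
    have hT0 : 0 < T := by linarith
    have hthird : (1 / 3 : ℝ) ^ (∑ l, gdeg (φ l)) ≤ (1 / 3 : ℝ) ^ (m * (2 * m ^ k)) :=
      pow_le_pow_of_le_one (by norm_num) (by norm_num) hsum
    have hkey : ((N : ℝ) * T) ^ 2 < 3 ^ m := by
      have h1 := hM m (hcM.trans hmc) hmpos
      have h2 : T ≤ Real.exp ((m : ℝ) / 4) := by
        have h3 : 2 + T = Real.exp L := by rw [hL, Real.exp_log (by linarith)]
        have h4 : L ≤ (m : ℝ) / 4 := by nlinarith
        have h5 := Real.exp_le_exp.2 h4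
        linarith
      have h3 : T ^ 2 ≤ Real.exp ((m : ℝ) / 2) := by
        have h4 : T ^ 2 ≤ Real.exp ((m : ℝ) / 4) ^ 2 := pow_le_pow_left₀ hT0.le h2 2
        rw [← Real.exp_nat_mul] at h4
        have e : ((2 : ℕ) : ℝ) * ((m : ℝ) / 4) = (m : ℝ) / 2 := by push_cast; ring
        rwa [e] at h4
      have h4 : Real.exp (m : ℝ) ≤ 3 ^ m := by
        have h5 : Real.exp (m : ℝ) = Real.exp 1 ^ m := by
          rw [← Real.exp_nat_mul, mul_one]
        rw [h5]
        refine pow_le_pow_left₀ (Real.exp_pos _).le ?_ m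
        have := Real.exp_one_lt_d9
        linarith
      have h5 : ((N : ℝ) * T) ^ 2 = 16 * (m : ℝ) ^ (2 * k) * T ^ 2 := by
        rw [hN]
        push_cast
        ring
      have h6 : Real.exp (m : ℝ) = Real.exp ((m : ℝ) / 2) * Real.exp ((m : ℝ) / 2) := by
        rw [← Real.exp_add]
        ring_nf
      rw [h5]
      calc 16 * (m : ℝ) ^ (2 * k) * T ^ 2 < Real.exp ((m : ℝ) / 2) * T ^ 2 :=
            mul_lt_mul_of_pos_right h1 (by positivity)
        _ ≤ Real.exp ((m : ℝ) / 2) * Real.exp ((m : ℝ) / 2) :=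
            mul_le_mul_of_nonneg_left h3 (Real.exp_pos _).le
        _ = Real.exp (m : ℝ) := h6.symm
        _ ≤ 3 ^ m := h4
    have hNT : ((N : ℝ) * T) ^ N * (1 / 3 : ℝ) ^ (m * (2 * m ^ k)) < 1 := by
      have e1 : ((N : ℝ) * T) ^ N = (((N : ℝ) * T) ^ 2) ^ (2 * m ^ k) := by
        rw [← pow_mul]
        congr 1
        rw [hN]
        ring
      have e2 : (1 / 3 : ℝ) ^ (m * (2 * m ^ k)) = ((3 ^ m : ℝ)⁻¹) ^ (2 * m ^ k) := by
        rw [pow_mul, one_div, inv_pow]
      rw [e1, e2, ← mul_pow]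
      have h3m : (0 : ℝ) < 3 ^ m := by positivity
      apply pow_lt_one₀ (by positivity)
      · rw [mul_inv_lt_iff₀ h3m, one_mul]
        exact hkey
      · have : 0 < 2 * m ^ k := by positivity
        omega
    calc (N.factorial : ℝ) * T ^ N * (1 / 3 : ℝ) ^ (∑ l, gdeg (φ l))
        ≤ (N : ℝ) ^ N * T ^ N * (1 / 3 : ℝ) ^ (m * (2 * m ^ k)) := by
          apply mul_le_mul _ hthird (by positivity) (by positivity)
          exact mul_le_mul_of_nonneg_right hfac (by positivity)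
      _ = ((N : ℝ) * T) ^ N * (1 / 3 : ℝ) ^ (m * (2 * m ^ k)) := by rw [mul_pow]
      _ < 1 := hNT

end Pool.Agent.Lib.MP_a8dae7_an.FP
end

section
/-!
# MP_a8dae7_an, FP, module DET: the determinant lemma (helper28)
-/
open scoped BigOperators
open MeasureTheory

namespace Pool.Agent.Lib.MP_a8dae7_an.FP

namespace DETM

/-- expansion of a determinant along sums in the columns -/
theorem det_expand {N : ℕ} {κ : Type} [DecidableEq κ] (S : Fin N → Finset κ)
    (c : Fin N → κ → ℝ) (f : κ → Fin N → ℝ) :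
    (Matrix.of fun p l => ∑ g ∈ S l, c l g * f g p : Matrix (Fin N) (Fin N) ℝ).det =
      ∑ φ ∈ Fintype.piFinset S, (∏ l, c l (φ l)) *
        (Matrix.of fun p l => f (φ l) p : Matrix (Fin N) (Fin N) ℝ).det := by
  rw [← Matrix.det_transpose]
  have h1 : (Matrix.of fun p l => ∑ g ∈ S l, c l g * f g p : Matrix (Fin N) (Fin N) ℝ).transpose =
      fun l => ∑ g ∈ S l, c l g • f g := by
    funext l p
    rw [Matrix.transpose_apply, Matrix.of_apply, Finset.sum_apply]
    rfl
  rw [h1]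
  change Matrix.detRowAlternating (fun l => ∑ g ∈ S l, c l g • f g) = _
  have h2 := (Matrix.detRowAlternating (R := ℝ) (n := Fin N)).toMultilinearMap.map_sum_finset
    (fun l g => c l g • f g) S
  refine (show _ = _ from h2).trans ?_
  refine Finset.sum_congr rfl fun φ _ => ?_
  have h3 := (Matrix.detRowAlternating (R := ℝ) (n := Fin N)).toMultilinearMap.map_smul_univ
    (fun l => c l (φ l)) (fun l => f (φ l))
  refine (show _ = _ from h3).trans ?_
  rw [smul_eq_mul]
  congr 1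
  rw [← Matrix.det_transpose]
  rfl

/-- Leibniz bound -/
theorem det_bound {N : ℕ} (M : Matrix (Fin N) (Fin N) ℝ) (x : Fin N → ℝ)
    (h : ∀ p l, |M p l| ≤ x l) : |M.det| ≤ (N.factorial : ℝ) * ∏ l, x l := by
  rw [Matrix.det_apply]
  refine (Finset.abs_sum_le_sum_abs _ _).trans ?_
  have h1 : ∀ σ ∈ (Finset.univ : Finset (Equiv.Perm (Fin N))),
      |Equiv.Perm.sign σ • ∏ i, M (σ i) i| ≤ ∏ l, x l := by
    intro σ _
    have h2 : |Equiv.Perm.sign σ • ∏ i, M (σ i) i| = |∏ i, M (σ i) i| := by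
      rcases Int.units_eq_one_or (Equiv.Perm.sign σ) with hs | hs
      · rw [hs, one_smul]
      · rw [hs, Units.neg_smul, one_smul, abs_neg]
    rw [h2, Finset.abs_prod]
    exact Finset.prod_le_prod (fun _ _ => abs_nonneg _) fun i _ => h _ _
  refine (Finset.sum_le_sum h1).trans ?_
  rw [Finset.sum_const, Finset.card_univ, Fintype.card_perm, Fintype.card_fin, nsmul_eq_mul]

theorem gmon_bound {P : Type} {k : ℕ} (t : P → ℝ) (y : Fin k → P → ℝ) {T η : ℝ} (hT : 1 ≤ T)
    (hη : 0 < η) (hy : ∀ j p, |y j p| ≤ η) (ht : ∀ p, |t p| ≤ T * η)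
    (g : Bool × (Fin k → ℕ)) (p : P) : |gmon t y g p| ≤ T * η ^ gdeg g := by
  unfold gmon gdeg
  rw [abs_mul, Finset.abs_prod, pow_add, ← Finset.prod_pow_eq_pow_sum]
  have h1 : ∏ j, |y j p ^ g.2 j| ≤ ∏ j, η ^ g.2 j := by
    refine Finset.prod_le_prod (fun _ _ => abs_nonneg _) fun j _ => ?_
    rw [abs_pow]
    exact pow_le_pow_left₀ (abs_nonneg _) (hy j p) _
  have h0 : 0 ≤ ∏ j, |y j p ^ g.2 j| := Finset.prod_nonneg fun _ _ => abs_nonneg _
  by_cases hg : g.1 = true
  · rw [if_pos hg, if_pos hg, pow_one, ← mul_assoc]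
    exact mul_le_mul (ht p) h1 h0 (by positivity)
  · rw [if_neg hg, if_neg hg, pow_zero, one_mul, abs_one]
    exact mul_le_mul hT h1 h0 (by linarith)

end DETM

open DETM

/-- DET. -/
theorem specDET (hEXP : SpecEXP) (hHOM : SpecHOM) (hSPN : SpecSPN) (hSEP : SpecSEP) :
    SpecDET := by
  classical
  intro k hk N t y ξ ν e α β T η hν he hξ ht hy hQ hsep hT hη hη1 hyb htb
  -- minimal words
  let D : (Fin N → List (Fin (k + 1))) → ℝ :=
    fun w => (Matrix.of fun p l => (mono ξ (w l) p : ℝ) : Matrix (Fin N) (Fin N) ℝ).det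
  have hex : ∃ m : ℕ, ∃ w : Fin N → List (Fin (k + 1)), D w ≠ 0 ∧ ∑ l, (w l).length = m := by
    obtain ⟨w, hw⟩ := hSEP N (k + 1) ξ hsep
    exact ⟨_, w, hw, rfl⟩
  obtain ⟨w, hw, hwm⟩ := Nat.find_spec hex
  have hmin : ∀ w' : Fin N → List (Fin (k + 1)), D w' ≠ 0 →
      ∑ l, (w l).length ≤ ∑ l, (w' l).length := by
    intro w' hw'
    rw [hwm]
    exact Nat.find_min' hex ⟨w', hw', rfl⟩
  -- the determinant is at least one
  have hD1 : 1 ≤ |D w| := by
    have h1 : D w = (((Matrix.of fun p l => mono ξ (w l) p : Matrix (Fin N) (Fin N) ℤ).det : ℤ) :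
        ℝ) := by
      have h2 := (Int.castRingHom ℝ).map_det
        (Matrix.of fun p l => mono ξ (w l) p : Matrix (Fin N) (Fin N) ℤ)
      refine Eq.trans ?_ h2.symm
      rfl
    rw [h1] at hw ⊢
    have h3 : (Matrix.of fun p l => mono ξ (w l) p : Matrix (Fin N) (Fin N) ℤ).det ≠ 0 := by
      intro h4
      apply hw
      rw [h4, Int.cast_zero]
    have h4 := Int.one_le_abs h3
    have h5 : ((1 : ℤ) : ℝ) ≤
        ((|(Matrix.of fun p l => mono ξ (w l) p : Matrix (Fin N) (Fin N) ℤ).det| : ℤ) : ℝ) := by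
      exact_mod_cast h4
    rw [Int.cast_one, Int.cast_abs] at h5
    exact h5
  -- expansion
  have hexp := fun l => hEXP (Fin N) k hk t y ξ ν e α β hν he hξ hQ (w l)
  choose S c hS1 hS2 hS3 using hexp
  have hDe : D w = ∑ φ ∈ Fintype.piFinset S, (∏ l, c l (φ l)) *
      (Matrix.of fun p l => gmon t y (φ l) p : Matrix (Fin N) (Fin N) ℝ).det := by
    rw [← det_expand S c (fun g p => gmon t y g p)]
    have h1 : (Matrix.of fun p l => (mono ξ (w l) p : ℝ) : Matrix (Fin N) (Fin N) ℝ) =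
        Matrix.of fun p l => ∑ g ∈ S l, c l g * gmon t y g p := by
      ext p l
      rw [Matrix.of_apply, Matrix.of_apply, hS2]
    exact congrArg Matrix.det h1
  -- nonvanishing determinants have top degree
  have htop : ∀ φ ∈ Fintype.piFinset S,
      (Matrix.of fun p l => gmon t y (φ l) p : Matrix (Fin N) (Fin N) ℝ).det ≠ 0 →
      ∀ l, gdeg (φ l) = (w l).length := by
    intro φ hφ hdet
    rw [Fintype.mem_piFinset] at hφ
    obtain ⟨u, hu1, hu2⟩ := hSPN N
      (fun l => {f : Fin N → ℝ | ∃ w : List (Fin (k + 1)), w.length = gdeg (φ l) ∧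
        f = fun p => (mono ξ w p : ℝ)}) (fun l => gmon t y (φ l))
      (fun l => hHOM (Fin N) k t y ξ ν e ht hy (φ l)) hdet
    choose w' hw1 hw2 using hu1
    have h1 : D w' ≠ 0 := by
      have h2 : (Matrix.of fun p l => u l p : Matrix (Fin N) (Fin N) ℝ) =
          Matrix.of fun p l => (mono ξ (w' l) p : ℝ) := by
        ext p l
        rw [Matrix.of_apply, Matrix.of_apply, hw2 l]
      rw [h2] at hu2
      exact hu2
    have h3 := hmin w' h1
    simp only [hw1] at h3
    have h4 : ∀ l ∈ (Finset.univ : Finset (Fin N)), gdeg (φ l) ≤ (w l).length :=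
      fun l _ => hS1 l _ (hφ l)
    have h5 := (Finset.sum_eq_sum_iff_of_le h4).1 (le_antisymm (Finset.sum_le_sum h4) h3)
    exact fun l => h5 l (Finset.mem_univ l)
  -- the bound
  let S' : Fin N → Finset (Bool × (Fin k → ℕ)) := fun l => (S l).filter fun g => gdeg g = (w l).length
  have hDb : |D w| ≤ (N.factorial : ℝ) * T ^ N * (2 * (k : ℝ) * η) ^ (∑ l, (w l).length) := by
    have h1 : D w = ∑ φ ∈ Fintype.piFinset S', (∏ l, c l (φ l)) *
        (Matrix.of fun p l => gmon t y (φ l) p : Matrix (Fin N) (Fin N) ℝ).det := by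
      rw [hDe]
      symm
      refine Finset.sum_subset ?_ ?_
      · intro φ hφ
        rw [Fintype.mem_piFinset] at hφ ⊢
        exact fun l => (Finset.mem_filter.1 (hφ l)).1
      · intro φ hφ hφ'
        by_contra hne
        apply hφ'
        have h2 := htop φ hφ (right_ne_zero_of_mul hne)
        rw [Fintype.mem_piFinset] at hφ ⊢
        exact fun l => Finset.mem_filter.2 ⟨hφ l, h2 l⟩
    have h2 : ∀ φ ∈ Fintype.piFinset S', |(∏ l, c l (φ l)) *
        (Matrix.of fun p l => gmon t y (φ l) p : Matrix (Fin N) (Fin N) ℝ).det| ≤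
        (∏ l, |c l (φ l)|) * ((N.factorial : ℝ) * (T ^ N * η ^ (∑ l, (w l).length))) := by
      intro φ hφ
      rw [Fintype.mem_piFinset] at hφ
      rw [abs_mul, Finset.abs_prod]
      refine mul_le_mul_of_nonneg_left ?_ (Finset.prod_nonneg fun _ _ => abs_nonneg _)
      have h3 := det_bound (Matrix.of fun p l => gmon t y (φ l) p : Matrix (Fin N) (Fin N) ℝ)
        (fun l => T * η ^ (w l).length) (fun p l => by
          rw [Matrix.of_apply, ← (Finset.mem_filter.1 (hφ l)).2]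
          exact gmon_bound t y hT hη hyb htb _ _)
      rw [Finset.prod_mul_distrib, Finset.prod_const, Finset.card_univ, Fintype.card_fin,
        Finset.prod_pow_eq_pow_sum] at h3
      exact h3
    rw [h1]
    refine (Finset.abs_sum_le_sum_abs _ _).trans ((Finset.sum_le_sum h2).trans ?_)
    have h5 : ∏ l, ∑ g ∈ S' l, |c l g| = ∑ φ ∈ Fintype.piFinset S', ∏ l, |c l (φ l)| :=
      Finset.prod_univ_sum S' (fun l g => |c l g|)
    rw [← Finset.sum_mul, ← h5]
    have h4 : ∏ l, ∑ g ∈ S' l, |c l g| ≤ ∏ l, (2 * (k : ℝ)) ^ (w l).length :=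
      Finset.prod_le_prod (fun _ _ => Finset.sum_nonneg fun _ _ => abs_nonneg _)
        fun l _ => hS3 l
    rw [Finset.prod_pow_eq_pow_sum] at h4
    calc (∏ l, ∑ g ∈ S' l, |c l g|) * ((N.factorial : ℝ) * (T ^ N * η ^ (∑ l, (w l).length)))
        ≤ (2 * (k : ℝ)) ^ (∑ l, (w l).length) *
          ((N.factorial : ℝ) * (T ^ N * η ^ (∑ l, (w l).length))) :=
          mul_le_mul_of_nonneg_right h4 (by positivity)
      _ = _ := by
          rw [mul_pow (2 * (k : ℝ)) η]
          ring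
  -- a nonvanishing determinant
  have hne : ∃ φ ∈ Fintype.piFinset S,
      (Matrix.of fun p l => gmon t y (φ l) p : Matrix (Fin N) (Fin N) ℝ).det ≠ 0 := by
    by_contra hcon
    push Not at hcon
    apply hw
    rw [hDe]
    refine Finset.sum_eq_zero fun φ hφ => ?_
    rw [hcon φ hφ, mul_zero]
  obtain ⟨φ, hφ, hdet⟩ := hne
  refine ⟨φ, ?_, ?_⟩
  · intro l l' hll
    by_contra hl
    apply hdet
    refine Matrix.det_zero_of_column_eq hl fun p => ?_
    rw [Matrix.of_apply, Matrix.of_apply, hll]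
  · have h1 := htop φ hφ hdet
    simp only [h1]
    exact hD1.trans hDb

end Pool.Agent.Lib.MP_a8dae7_an.FP
end

section
/-!
# MP_a8dae7_an FP, module EXP: expansion of words
-/
open scoped BigOperators

namespace Pool.Agent.Lib.MP_a8dae7_an.FP

namespace EXPM

/-- index set of the functions `t^i y^γ` -/
abbrev G (k : ℕ) := Bool × (Fin k → ℕ)

variable {P : Type} {k : ℕ}

/-- evaluation -/
noncomputable def ev (t : P → ℝ) (y : Fin k → P → ℝ) (p : P) : (G k →₀ ℝ) →ₗ[ℝ] ℝ :=
  Finsupp.linearCombination ℝ (fun g => gmon t y g p)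

/-- degree bound -/
def Dg (a : ℕ) (c : G k →₀ ℝ) : Prop := ∀ g, c g ≠ 0 → gdeg g ≤ a

/-- `ℓ¹` norm of the part of degree `a` -/
noncomputable def nm (a : ℕ) (c : G k →₀ ℝ) : ℝ := ∑ g ∈ c.support with gdeg g = a, |c g|

theorem nm_eq (a : ℕ) (c : G k →₀ ℝ) (S : Finset (G k)) (hS : c.support ⊆ S) :
    nm a c = ∑ g ∈ S with gdeg g = a, |c g| := by
  unfold nm
  apply Finset.sum_subset (Finset.filter_subset_filter _ hS)
  intro g hg hg'
  have h1 := (Finset.mem_filter.1 hg).2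
  have h2 : g ∉ c.support := fun h => hg' (Finset.mem_filter.2 ⟨h, h1⟩)
  rw [Finsupp.notMem_support_iff.1 h2, abs_zero]

theorem nm_nonneg (a : ℕ) (c : G k →₀ ℝ) : 0 ≤ nm a c := Finset.sum_nonneg fun _ _ => abs_nonneg _

theorem nm_add (a : ℕ) (c c' : G k →₀ ℝ) : nm a (c + c') ≤ nm a c + nm a c' := by
  classical
  rw [nm_eq a (c + c') (c.support ∪ c'.support) Finsupp.support_add,
    nm_eq a c (c.support ∪ c'.support) Finset.subset_union_left,
    nm_eq a c' (c.support ∪ c'.support) Finset.subset_union_right, ← Finset.sum_add_distrib]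
  exact Finset.sum_le_sum fun g _ => by
    rw [Finsupp.add_apply]
    exact abs_add_le _ _

theorem nm_smul (a : ℕ) (r : ℝ) (c : G k →₀ ℝ) : nm a (r • c) = |r| * nm a c := by
  rw [nm_eq a (r • c) c.support Finsupp.support_smul, nm, Finset.mul_sum]
  exact Finset.sum_congr rfl fun g _ => by rw [Finsupp.smul_apply, smul_eq_mul, abs_mul]

theorem nm_zero (a : ℕ) : nm a (0 : G k →₀ ℝ) = 0 := by simp [nm]

theorem nm_single (a : ℕ) (g : G k) : nm a (Finsupp.single g (1 : ℝ)) ≤ 1 := by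
  rw [nm_eq a _ {g} Finsupp.support_single_subset]
  by_cases h : gdeg g = a
  · rw [Finset.filter_true_of_mem (by simpa using h)]
    simp
  · rw [Finset.filter_false_of_mem (by simpa using h)]
    simp

theorem nm_of_Dg {a b : ℕ} (hab : b < a) {c : G k →₀ ℝ} (hc : Dg b c) : nm a c = 0 := by
  unfold nm
  apply Finset.sum_eq_zero
  intro g hg
  obtain ⟨h1, h2⟩ := Finset.mem_filter.1 hg
  have := hc g (Finsupp.mem_support_iff.1 h1)
  omega

theorem nm_sum {ι : Type} (a : ℕ) (s : Finset ι) (f : ι → (G k →₀ ℝ)) :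
    nm a (∑ i ∈ s, f i) ≤ ∑ i ∈ s, nm a (f i) := by
  classical
  induction s using Finset.induction_on with
  | empty => simp [nm_zero]
  | insert i s hi ih =>
    rw [Finset.sum_insert hi, Finset.sum_insert hi]
    exact (nm_add _ _ _).trans (by linarith)

theorem Dg_add {a : ℕ} {c c' : G k →₀ ℝ} (h : Dg a c) (h' : Dg a c') : Dg a (c + c') := by
  intro g hg
  by_contra hlt
  have h1 : c g = 0 := by
    by_contra hne
    exact hlt (h g hne)
  have h2 : c' g = 0 := by
    by_contra hne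
    exact hlt (h' g hne)
  exact hg (by rw [Finsupp.add_apply, h1, h2, add_zero])

theorem Dg_smul {a : ℕ} (r : ℝ) {c : G k →₀ ℝ} (h : Dg a c) : Dg a (r • c) := by
  intro g hg
  apply h g
  intro h0
  exact hg (by rw [Finsupp.smul_apply, h0, smul_zero])

theorem Dg_zero (a : ℕ) : Dg a (0 : G k →₀ ℝ) := fun _ hg => absurd rfl hg

theorem Dg_single {a : ℕ} {g : G k} (h : gdeg g ≤ a) (r : ℝ) : Dg a (Finsupp.single g r) := by
  intro g' hg'
  by_cases e : g = g'
  · rw [← e]
    exact h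
  · exact absurd (Finsupp.single_eq_of_ne (Ne.symm e)) hg'

theorem Dg_sum {ι : Type} {a : ℕ} (s : Finset ι) {f : ι → (G k →₀ ℝ)} (h : ∀ i ∈ s, Dg a (f i)) :
    Dg a (∑ i ∈ s, f i) := by
  classical
  induction s using Finset.induction_on with
  | empty => simpa using Dg_zero a
  | insert i s hi ih =>
    rw [Finset.sum_insert hi]
    exact Dg_add (h i (Finset.mem_insert_self _ _))
      (ih fun j hj => h j (Finset.mem_insert_of_mem hj))

/-- add a unit vector to the exponent -/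
def up (j : Fin k) (γ : Fin k → ℕ) : Fin k → ℕ := γ + Pi.single j 1

theorem sum_up (j : Fin k) (γ : Fin k → ℕ) : ∑ i, up j γ i = ∑ i, γ i + 1 := by
  unfold up
  simp [Finset.sum_add_distrib]

theorem prod_up (y : Fin k → P → ℝ) (j : Fin k) (γ : Fin k → ℕ) (p : P) :
    ∏ i, y i p ^ up j γ i = y j p * ∏ i, y i p ^ γ i := by
  have h : ∀ i, y i p ^ up j γ i = y i p ^ γ i * (if i = j then y j p else 1) := by
    intro i
    by_cases e : i = j
    · subst e
      simp [up, pow_succ]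
    · simp [up, e]
  rw [Finset.prod_congr rfl fun i _ => h i, Finset.prod_mul_distrib, Finset.prod_ite_eq' Finset.univ j]
  simp [mul_comm]

/-- expansion of `ξ i * gmon g` -/
noncomputable def op (n : ℝ) (e : Fin k → ℝ) (α : ℝ) (β : Fin k → ℝ) : G k → (G k →₀ ℝ)
  | (false, γ) => n • Finsupp.single (true, γ) 1 + ∑ j, e j • Finsupp.single (false, up j γ) 1
  | (true, γ) => (∑ j, (-n) • Finsupp.single (false, up j (up j γ)) 1) +
      ((n * α) • Finsupp.single (true, γ) 1 +
      ((∑ j, (n * β j) • Finsupp.single (false, up j γ) 1) +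
       ∑ j, e j • Finsupp.single (true, up j γ) 1))

theorem gdeg_false (γ : Fin k → ℕ) : gdeg (false, γ) = ∑ j, γ j := by simp [gdeg]

theorem gdeg_true (γ : Fin k → ℕ) : gdeg (true, γ) = ∑ j, γ j + 1 := by simp [gdeg, add_comm]

theorem op_Dg (n : ℝ) (e : Fin k → ℝ) (α : ℝ) (β : Fin k → ℝ) (g : G k) :
    Dg (gdeg g + 1) (op n e α β g) := by
  obtain ⟨b, γ⟩ := g
  cases b with
  | false =>
    rw [gdeg_false]
    refine Dg_add (Dg_smul _ (Dg_single ?_ _)) (Dg_sum _ fun j _ => Dg_smul _ (Dg_single ?_ _))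
    · rw [gdeg_true]
    · rw [gdeg_false, sum_up]
  | true =>
    rw [gdeg_true]
    refine Dg_add (Dg_sum _ fun j _ => Dg_smul _ (Dg_single ?_ _)) (Dg_add (Dg_smul _ (Dg_single ?_ _))
      (Dg_add (Dg_sum _ fun j _ => Dg_smul _ (Dg_single ?_ _))
        (Dg_sum _ fun j _ => Dg_smul _ (Dg_single ?_ _))))
    · rw [gdeg_false, sum_up, sum_up]
    · rw [gdeg_true]
      omega
    · rw [gdeg_false, sum_up]
      omega
    · rw [gdeg_true, sum_up]

theorem nm_smul_single_le (a : ℕ) (r : ℝ) (g : G k) (h : |r| ≤ 1) :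
    nm a (r • Finsupp.single g (1 : ℝ)) ≤ 1 := by
  rw [nm_smul]
  have h1 := nm_single a g
  have h2 := nm_nonneg a (Finsupp.single g (1 : ℝ))
  have h3 := abs_nonneg r
  nlinarith

theorem nm_smul_single_zero {a : ℕ} (r : ℝ) {g : G k} (h : gdeg g < a) :
    nm a (r • Finsupp.single g (1 : ℝ)) = 0 :=
  nm_of_Dg h (Dg_smul r (Dg_single le_rfl 1))

theorem sum_le_k {a : ℕ} (r : Fin k → ℝ) (g : Fin k → G k) (h : ∀ j, |r j| ≤ 1) :
    nm a (∑ j, r j • Finsupp.single (g j) (1 : ℝ)) ≤ k := by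
  refine (nm_sum a _ _).trans ?_
  calc ∑ j : Fin k, nm a (r j • Finsupp.single (g j) (1 : ℝ)) ≤ ∑ _j : Fin k, (1 : ℝ) :=
        Finset.sum_le_sum fun j _ => nm_smul_single_le a (r j) (g j) (h j)
    _ = k := by simp

theorem op_nm (hk : 1 ≤ k) (n : ℝ) (e : Fin k → ℝ) (α : ℝ) (β : Fin k → ℝ) (hn : |n| ≤ 1)
    (he : ∀ j, |e j| ≤ 1) (g : G k) : nm (gdeg g + 1) (op n e α β g) ≤ 2 * k := by
  have hk' : (1 : ℝ) ≤ k := by exact_mod_cast hk
  obtain ⟨b, γ⟩ := g
  cases b with
  | false =>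
    refine (nm_add _ _ _).trans ?_
    have h1 := nm_smul_single_le (gdeg (false, γ) + 1) n (true, γ) hn
    have h2 := sum_le_k (a := gdeg (false, γ) + 1) e (fun j => (false, up j γ)) he
    linarith
  | true =>
    refine (nm_add _ _ _).trans ?_
    have h1 := sum_le_k (a := gdeg (true, γ) + 1) (fun _ => -n) (fun j => (false, up j (up j γ)))
      (fun _ => by rw [abs_neg]; exact hn)
    have h2 := sum_le_k (a := gdeg (true, γ) + 1) e (fun j => (true, up j γ)) he
    have h3 : nm (gdeg (true, γ) + 1) ((n * α) • Finsupp.single (true, γ) (1 : ℝ)) = 0 :=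
      nm_smul_single_zero _ (by omega)
    have h4 : nm (gdeg (true, γ) + 1) (∑ j, (n * β j) • Finsupp.single (false, up j γ) (1 : ℝ)) = 0 := by
      apply nm_of_Dg (b := gdeg (true, γ)) (by omega)
      refine Dg_sum _ fun j _ => Dg_smul _ (Dg_single ?_ _)
      rw [gdeg_false, gdeg_true, sum_up]
    have h5 := nm_add (gdeg (true, γ) + 1) ((n * α) • Finsupp.single (true, γ) (1 : ℝ))
      ((∑ j, (n * β j) • Finsupp.single (false, up j γ) (1 : ℝ)) +
        ∑ j, e j • Finsupp.single (true, up j γ) (1 : ℝ))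
    have h6 := nm_add (gdeg (true, γ) + 1) (∑ j, (n * β j) • Finsupp.single (false, up j γ) (1 : ℝ))
      (∑ j, e j • Finsupp.single (true, up j γ) (1 : ℝ))
    linarith

theorem ev_single (t : P → ℝ) (y : Fin k → P → ℝ) (p : P) (g : G k) :
    ev t y p (Finsupp.single g 1) = gmon t y g p := by
  simp [ev]

theorem op_ev (t : P → ℝ) (y : Fin k → P → ℝ) (p : P) (n : ℝ) (e : Fin k → ℝ) (α : ℝ) (β : Fin k → ℝ)
    (x : ℝ) (hx : x = n * t p + ∑ j, e j * y j p)
    (ht : t p ^ 2 = -∑ j, y j p ^ 2 + α * t p + ∑ j, β j * y j p) (g : G k) :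
    ev t y p (op n e α β g) = x * gmon t y g p := by
  obtain ⟨b, γ⟩ := g
  have hf : ∀ γ : Fin k → ℕ, gmon t y (false, γ) p = ∏ j, y j p ^ γ j := fun γ => by simp [gmon]
  have htr : ∀ γ : Fin k → ℕ, gmon t y (true, γ) p = t p * ∏ j, y j p ^ γ j := fun γ => by simp [gmon]
  cases b with
  | false =>
    simp only [op, map_add, map_sum, map_smul, ev_single, smul_eq_mul, hf, htr, prod_up]
    rw [hx, add_mul, Finset.sum_mul]
    congr 1
    · ring
    · exact Finset.sum_congr rfl fun j _ => by ring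
  | true =>
    simp only [op, map_add, map_sum, map_smul, ev_single, smul_eq_mul, hf, htr, prod_up]
    set Y := ∏ j, y j p ^ γ j with hY
    have h1 : ∑ j, -n * (y j p * (y j p * Y)) = -(n * Y) * ∑ j, y j p ^ 2 := by
      rw [Finset.mul_sum]
      exact Finset.sum_congr rfl fun j _ => by ring
    have h2 : ∑ j, n * β j * (y j p * Y) = n * Y * ∑ j, β j * y j p := by
      rw [Finset.mul_sum]
      exact Finset.sum_congr rfl fun j _ => by ring
    have h3 : ∑ j, e j * (t p * (y j p * Y)) = t p * Y * ∑ j, e j * y j p := by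
      rw [Finset.mul_sum]
      exact Finset.sum_congr rfl fun j _ => by ring
    rw [h1, h2, h3, hx]
    linear_combination (-(n * Y)) * ht

end EXPM

open EXPM in
/-- EXP -/
theorem specEXP : SpecEXP := by
  classical
  intro P k hk t y ξ ν e α β hν he hξ ht w
  suffices h : ∃ c : G k →₀ ℝ, Dg w.length c ∧ (∀ p, (mono ξ w p : ℝ) = ev t y p c) ∧
      nm w.length c ≤ (2 * (k : ℝ)) ^ w.length by
    obtain ⟨c, h1, h2, h3⟩ := h
    refine ⟨c.support, c, fun g hg => h1 g (Finsupp.mem_support_iff.1 hg), fun p => ?_, h3⟩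
    rw [h2 p, ev, Finsupp.linearCombination_apply, Finsupp.sum]
    simp only [smul_eq_mul]
  induction w with
  | nil =>
    refine ⟨Finsupp.single (false, 0) 1, Dg_single (by simp [gdeg]) 1, fun p => ?_, ?_⟩
    · rw [ev_single]
      simp [mono, gmon]
    · simpa using nm_single 0 ((false, 0) : G k)
  | cons i w ih =>
    obtain ⟨c, h1, h2, h3⟩ := ih
    refine ⟨∑ g ∈ c.support, c g • op (ν i) (fun j => e j i) α β g, ?_, fun p => ?_, ?_⟩
    · refine Dg_sum _ fun g hg => Dg_smul _ ?_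
      intro g' hg'
      have h4 := op_Dg (ν i) (fun j => e j i) α β g g' hg'
      have h5 := h1 g (Finsupp.mem_support_iff.1 hg)
      rw [List.length_cons]
      omega
    · have h4 : (mono ξ (i :: w) p : ℝ) = (ξ i p : ℝ) * (mono ξ w p : ℝ) := by simp [mono]
      rw [h4, h2 p, map_sum, ev, Finsupp.linearCombination_apply, Finsupp.sum, Finset.mul_sum]
      refine Finset.sum_congr rfl fun g _ => ?_
      rw [map_smul, smul_eq_mul, smul_eq_mul]
      have h5 := op_ev t y p (ν i) (fun j => e j i) α β (ξ i p : ℝ) (hξ i p) (ht p) g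
      rw [ev] at h5
      rw [h5]
      ring
    · rw [List.length_cons]
      refine (nm_sum _ _ _).trans ?_
      have h4 : ∀ g ∈ c.support, nm (w.length + 1) (c g • op (ν i) (fun j => e j i) α β g) ≤
          if gdeg g = w.length then |c g| * (2 * (k : ℝ)) else 0 := by
        intro g hg
        rw [nm_smul]
        have h5 := h1 g (Finsupp.mem_support_iff.1 hg)
        split_ifs with h6
        · rw [← h6]
          exact mul_le_mul_of_nonneg_left
            (op_nm hk (ν i) (fun j => e j i) α β (hν i) (fun j => he j i) g) (abs_nonneg _)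
        · rw [nm_of_Dg (b := gdeg g + 1) (by omega) (op_Dg _ _ _ _ g), mul_zero]
      refine (Finset.sum_le_sum h4).trans ?_
      rw [← Finset.sum_filter, ← Finset.sum_mul, pow_succ]
      exact mul_le_mul_of_nonneg_right h3 (by positivity)

end Pool.Agent.Lib.MP_a8dae7_an.FP
end

section
/-!
# MP_a8dae7_an, FP, module GA2: the Schur sum over the cells (helper28)
-/
open scoped BigOperators
open MeasureTheory

namespace Pool.Agent.Lib.MP_a8dae7_an.FP

namespace GA2M

/-- the decaying function of the cells -/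
noncomputable def g (r : ℤ) : ℝ := Real.exp (-|(r : ℝ)|)

theorem g_nonneg (r : ℤ) : 0 ≤ g r := (Real.exp_pos _).le

theorem g_summable : Summable g := by
  have h : Summable (fun n : ℕ => Real.exp (-(n : ℝ))) := Real.summable_exp_neg_nat
  refine Summable.of_nat_of_neg (f := g) ?_ ?_
  · refine h.congr fun n => ?_
    unfold g
    rw [Int.cast_natCast, abs_of_nonneg (Nat.cast_nonneg n)]
  · refine h.congr fun n => ?_
    unfold g
    rw [Int.cast_neg, Int.cast_natCast, abs_neg, abs_of_nonneg (Nat.cast_nonneg n)]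

theorem sum_le (Q : Finset ℤ) (q₀ : ℤ) : ∑ r ∈ Q, g (r - q₀) ≤ ∑' r, g r := by
  have h1 : Summable (fun r : ℤ => g (r - q₀)) := g_summable.comp_injective (Equiv.subRight q₀).injective
  have h2 : ∑' r : ℤ, g (r - q₀) = ∑' r, g r := (Equiv.subRight q₀).tsum_eq g
  rw [← h2]
  exact h1.sum_le_tsum Q fun _ _ => g_nonneg _

/-- one coordinate -/
theorem one_coord {c : ℝ} (hc : 0 < c) (a b : ℝ) :
    Real.exp (-((a - b) ^ 2) / 4) ≤
      Real.exp (c ^ 2 + 1) * g (⌊c * b⌋ - ⌊c * a⌋) := by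
  unfold g
  rw [← Real.exp_add]
  apply Real.exp_le_exp.2
  have h1 : |((⌊c * b⌋ - ⌊c * a⌋ : ℤ) : ℝ)| ≤ c * |a - b| + 1 := by
    push_cast
    have h3 := Int.floor_le (c * b)
    have h4 := Int.lt_floor_add_one (c * b)
    have h5 := Int.floor_le (c * a)
    have h6 := Int.lt_floor_add_one (c * a)
    have h7 : c * (a - b) ≤ c * |a - b| := mul_le_mul_of_nonneg_left (le_abs_self _) hc.le
    have h8 : c * (-(a - b)) ≤ c * |a - b| := mul_le_mul_of_nonneg_left (neg_le_abs _) hc.le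
    rw [abs_le]
    constructor <;> nlinarith
  have h2 : (a - b) ^ 2 = |a - b| ^ 2 := (sq_abs _).symm
  rw [h2]
  nlinarith [sq_nonneg (|a - b| / 2 - c)]

end GA2M

open GA2M

/-- GA2. -/
theorem specGA2 : SpecGA2 := by
  classical
  intro k hk
  have hc : (0 : ℝ) < 6 * (k : ℝ) := by
    have : (1 : ℝ) ≤ k := by exact_mod_cast hk
    linarith
  have hG : 0 ≤ ∑' r, g r := tsum_nonneg g_nonneg
  refine ⟨Real.exp ((6 * (k : ℝ)) ^ 2 + 1) ^ k * ((∑' r, g r) + 1) ^ k, by positivity, ?_⟩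
  intro ι s Y K hK hcell n hn
  let c : ι → Fin k → ℤ := fun m j => ⌊6 * (k : ℝ) * Y m j⌋
  have h1 : ∀ m ∈ s, Real.exp (-(‖Y n - Y m‖ ^ 2) / 4) ≤
      Real.exp ((6 * (k : ℝ)) ^ 2 + 1) ^ k * ∏ j, g (c m j - c n j) := by
    intro m _
    have h2 : ‖Y n - Y m‖ ^ 2 = ∑ j, (Y n j - Y m j) ^ 2 := by
      rw [EuclideanSpace.norm_sq_eq]
      refine Finset.sum_congr rfl fun j _ => ?_
      rw [Real.norm_eq_abs, sq_abs, PiLp.sub_apply]
    have h3 : -(‖Y n - Y m‖ ^ 2) / 4 = ∑ j, (-((Y n j - Y m j) ^ 2) / 4) := by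
      rw [h2, ← Finset.sum_div, Finset.sum_neg_distrib]
    rw [h3, Real.exp_sum]
    have h4 : Real.exp ((6 * (k : ℝ)) ^ 2 + 1) ^ k =
        ∏ _j : Fin k, Real.exp ((6 * (k : ℝ)) ^ 2 + 1) := by
      rw [Finset.prod_const, Finset.card_univ, Fintype.card_fin]
    rw [h4, ← Finset.prod_mul_distrib]
    exact Finset.prod_le_prod (fun _ _ => (Real.exp_pos _).le)
      (fun j _ => one_coord hc (Y n j) (Y m j))
  have h5 : ∑ m ∈ s, ∏ j, g (c m j - c n j) ≤ K * ((∑' r, g r) + 1) ^ k := by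
    rw [Finset.sum_comp (fun q : Fin k → ℤ => ∏ j, g (q j - c n j)) c]
    have h6 : ∀ q ∈ s.image c, (s.filter fun m => c m = q).card • ∏ j, g (q j - c n j) ≤
        K * ∏ j, g (q j - c n j) := by
      intro q _
      rw [nsmul_eq_mul]
      refine mul_le_mul_of_nonneg_right ?_ (Finset.prod_nonneg fun _ _ => g_nonneg _)
      refine le_trans (le_of_eq ?_) (hcell q)
      congr 2
      refine Finset.filter_congr fun m _ => ?_
      rw [funext_iff]
    refine (Finset.sum_le_sum h6).trans ?_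
    rw [← Finset.mul_sum]
    refine mul_le_mul_of_nonneg_left ?_ hK
    have h7 : s.image c ⊆ Fintype.piFinset (fun j => s.image fun m => c m j) := by
      intro q hq
      obtain ⟨m, hm, rfl⟩ := Finset.mem_image.1 hq
      rw [Fintype.mem_piFinset]
      intro j
      exact Finset.mem_image_of_mem _ hm
    refine (Finset.sum_le_sum_of_subset_of_nonneg h7
      (fun _ _ _ => Finset.prod_nonneg fun _ _ => g_nonneg _)).trans ?_
    have h8 := Finset.prod_univ_sum (fun j : Fin k => s.image fun m => c m j)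
      (fun j r => g (r - c n j))
    rw [← h8]
    have h9 : ((∑' r, g r) + 1) ^ k = ∏ _j : Fin k, ((∑' r, g r) + 1) := by
      rw [Finset.prod_const, Finset.card_univ, Fintype.card_fin]
    rw [h9]
    refine Finset.prod_le_prod (fun _ _ => Finset.sum_nonneg fun _ _ => g_nonneg _) fun j _ => ?_
    have := sum_le (s.image fun m => c m j) (c n j)
    linarith
  calc ∑ m ∈ s, Real.exp (-(‖Y n - Y m‖ ^ 2) / 4)
      ≤ ∑ m ∈ s, Real.exp ((6 * (k : ℝ)) ^ 2 + 1) ^ k * ∏ j, g (c m j - c n j) :=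
        Finset.sum_le_sum h1
    _ = Real.exp ((6 * (k : ℝ)) ^ 2 + 1) ^ k * ∑ m ∈ s, ∏ j, g (c m j - c n j) := by
        rw [Finset.mul_sum]
    _ ≤ Real.exp ((6 * (k : ℝ)) ^ 2 + 1) ^ k * (K * ((∑' r, g r) + 1) ^ k) :=
        mul_le_mul_of_nonneg_left h5 (by positivity)
    _ = _ := by ring

end Pool.Agent.Lib.MP_a8dae7_an.FP
end

section
/-!
# MP_a8dae7_an: module GAU (Schur's test for the Gaussian kernel, from GA1 and GA2)
-/
open scoped BigOperators
open MeasureTheory

namespace Pool.Agent.Lib.MP_a8dae7_an.FP.GAUM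

/-- Schur's test for a symmetric nonnegative kernel on a finite set -/
theorem schur {ι : Type} (s : Finset ι) (E : ι → ι → ℝ) (b : ι → ℝ) (M : ℝ)
    (hE : ∀ n m, 0 ≤ E n m) (hs : ∀ n m, E n m = E m n)
    (hM : ∀ n ∈ s, ∑ m ∈ s, E n m ≤ M) :
    ∑ n ∈ s, ∑ m ∈ s, b n * b m * E n m ≤ M * ∑ n ∈ s, b n ^ 2 := by
  have h1 : ∑ n ∈ s, ∑ m ∈ s, b n * b m * E n m
      ≤ ∑ n ∈ s, ∑ m ∈ s, (b n ^ 2 * E n m / 2 + b m ^ 2 * E n m / 2) := by
    refine Finset.sum_le_sum fun n _ => Finset.sum_le_sum fun m _ => ?_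
    have h := mul_nonneg (sq_nonneg (b n - b m)) (hE n m)
    nlinarith [h]
  have h2 : ∑ n ∈ s, ∑ m ∈ s, (b n ^ 2 * E n m / 2 + b m ^ 2 * E n m / 2)
      = ∑ n ∈ s, b n ^ 2 * ∑ m ∈ s, E n m := by
    have e1 : ∑ n ∈ s, ∑ m ∈ s, (b n ^ 2 * E n m / 2 + b m ^ 2 * E n m / 2)
        = (∑ n ∈ s, ∑ m ∈ s, b n ^ 2 * E n m / 2) + ∑ n ∈ s, ∑ m ∈ s, b m ^ 2 * E n m / 2 := by
      rw [← Finset.sum_add_distrib]
      exact Finset.sum_congr rfl fun n _ => Finset.sum_add_distrib
    have e2 : ∑ n ∈ s, ∑ m ∈ s, b m ^ 2 * E n m / 2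
        = ∑ n ∈ s, ∑ m ∈ s, b n ^ 2 * E n m / 2 := by
      rw [Finset.sum_comm]
      exact Finset.sum_congr rfl fun n _ => Finset.sum_congr rfl fun m _ => by rw [hs m n]
    rw [e1, e2, ← Finset.sum_add_distrib]
    refine Finset.sum_congr rfl fun n _ => ?_
    rw [Finset.mul_sum, ← Finset.sum_add_distrib]
    exact Finset.sum_congr rfl fun m _ => by ring
  rw [h2] at h1
  refine h1.trans ?_
  rw [Finset.mul_sum]
  refine Finset.sum_le_sum fun n hn => ?_
  rw [mul_comm M]
  exact mul_le_mul_of_nonneg_left (hM n hn) (sq_nonneg _)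

end Pool.Agent.Lib.MP_a8dae7_an.FP.GAUM

namespace Pool.Agent.Lib.MP_a8dae7_an.FP

theorem specGAU (hGA1 : SpecGA1) (hGA2 : SpecGA2) : SpecGAU := by
  intro k hk
  obtain ⟨C1, hC1, h1⟩ := hGA1 k
  obtain ⟨C2, hC2, h2⟩ := hGA2 k hk
  refine ⟨C1 * C2, mul_pos hC1 hC2, ?_⟩
  intro ι s Y K hK hcell a ρ hρ
  have hB := h2 ι s Y K hK hcell
  have hS := GAUM.schur s (fun n m => Real.exp (-(‖Y n - Y m‖ ^ 2) / 4)) (fun n => ‖a n‖)
    (C2 * K) (fun n m => (Real.exp_pos _).le) (fun n m => by simp only [norm_sub_rev (Y n) (Y m)])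
    hB
  refine (h1 ι s Y a ρ hρ).trans ?_
  have hρk : 0 ≤ C1 * ρ ^ k := mul_nonneg hC1.le (pow_nonneg (by linarith) k)
  refine (mul_le_mul_of_nonneg_left hS hρk).trans (le_of_eq ?_)
  ring

end Pool.Agent.Lib.MP_a8dae7_an.FP
end

section
/-!
# MP_a8dae7_an FP, module HOM: the functions `t^i y^γ` are combinations of words
-/
open scoped BigOperators

namespace Pool.Agent.Lib.MP_a8dae7_an.FP

namespace HOMM

variable {P : Type} {k : ℕ} (ξ : Fin (k + 1) → P → ℤ)

/-- span of the words of length `a` -/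
def W (a : ℕ) : Submodule ℝ (P → ℝ) :=
  Submodule.span ℝ {f : P → ℝ | ∃ w : List (Fin (k + 1)), w.length = a ∧ f = fun p => (mono ξ w p : ℝ)}

theorem one_mem : (fun _ => (1 : ℝ)) ∈ W ξ 0 := by
  apply Submodule.subset_span
  refine ⟨[], rfl, ?_⟩
  funext p
  simp [mono]

theorem xi_mul (i : Fin (k + 1)) (a : ℕ) (f : P → ℝ) (hf : f ∈ W ξ a) :
    (fun p => (ξ i p : ℝ) * f p) ∈ W ξ (a + 1) := by
  have h : W ξ a ≤ (W ξ (a + 1)).comap (LinearMap.mulLeft ℝ (fun p => (ξ i p : ℝ))) := by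
    rw [W, Submodule.span_le]
    rintro g ⟨w, hw, rfl⟩
    apply Submodule.subset_span
    refine ⟨i :: w, by simp [hw], ?_⟩
    funext p
    simp [mono]
  exact h hf

theorem lin_mul (c : Fin (k + 1) → ℝ) (L : P → ℝ) (hL : ∀ p, L p = ∑ i, c i * (ξ i p : ℝ)) (a : ℕ)
    (f : P → ℝ) (hf : f ∈ W ξ a) : (fun p => L p * f p) ∈ W ξ (a + 1) := by
  have h : (fun p => L p * f p) = ∑ i, c i • (fun p => (ξ i p : ℝ) * f p) := by
    funext p
    rw [Finset.sum_apply, hL p, Finset.sum_mul]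
    refine Finset.sum_congr rfl fun i _ => ?_
    simp [mul_assoc]
  rw [h]
  exact Submodule.sum_mem _ fun i _ => Submodule.smul_mem _ _ (xi_mul ξ i a f hf)

theorem pow_mul (c : Fin (k + 1) → ℝ) (L : P → ℝ) (hL : ∀ p, L p = ∑ i, c i * (ξ i p : ℝ)) (a m : ℕ)
    (f : P → ℝ) (hf : f ∈ W ξ a) : (fun p => L p ^ m * f p) ∈ W ξ (m + a) := by
  induction m with
  | zero => simpa using hf
  | succ m ih =>
    have h := lin_mul ξ c L hL (m + a) _ ih
    have e : (fun p => L p ^ (m + 1) * f p) = fun p => L p * (L p ^ m * f p) := by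
      funext p
      ring
    rw [e, show m + 1 + a = m + a + 1 by ring]
    exact h

theorem prod_mem (y : Fin k → P → ℝ) (e : Fin k → Fin (k + 1) → ℝ)
    (hy : ∀ j p, y j p = ∑ i, e j i * (ξ i p : ℝ)) (γ : Fin k → ℕ) (A : Finset (Fin k)) :
    (fun p => ∏ j ∈ A, y j p ^ γ j) ∈ W ξ (∑ j ∈ A, γ j) := by
  induction A using Finset.induction_on with
  | empty => simpa using one_mem ξ
  | insert j A hj ih =>
    have h := pow_mul ξ (e j) (y j) (hy j) (∑ j ∈ A, γ j) (γ j) _ ih
    have e' : (fun p => ∏ j ∈ insert j A, y j p ^ γ j) =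
        fun p => y j p ^ γ j * ∏ j ∈ A, y j p ^ γ j := by
      funext p
      rw [Finset.prod_insert hj]
    rw [e', Finset.sum_insert hj]
    exact h

end HOMM

open HOMM in
/-- HOM -/
theorem specHOM : SpecHOM := by
  intro P k t y ξ ν e ht hy g
  obtain ⟨b, γ⟩ := g
  have h := prod_mem ξ y e hy γ Finset.univ
  change gmon t y (b, γ) ∈ W ξ (gdeg (b, γ))
  cases b with
  | false =>
    have e1 : gmon t y (false, γ) = fun p => ∏ j, y j p ^ γ j := by
      funext p
      simp [gmon]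
    have e2 : gdeg (false, γ) = ∑ j, γ j := by simp [gdeg]
    rw [e1, e2]
    exact h
  | true =>
    have e1 : gmon t y (true, γ) = fun p => t p * ∏ j, y j p ^ γ j := by
      funext p
      simp [gmon]
    have e2 : gdeg (true, γ) = ∑ j, γ j + 1 := by simp [gdeg, add_comm]
    rw [e1, e2]
    exact lin_mul ξ ν t ht _ _ h

end Pool.Agent.Lib.MP_a8dae7_an.FP
end

section
open scoped BigOperators
open MeasureTheory

namespace Pool.Agent.Lib.MP_a8dae7_an.FP

theorem specMAIN (hTUB : SpecTUB) (hGAU : SpecGAU) (hPAR : SpecPAR) (hFRM : SpecFRM) : SpecMAIN := by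
  intro k hk
  obtain ⟨C1, hC1, h1⟩ := hTUB k hk
  obtain ⟨C2, hC2, h2⟩ := hGAU k hk
  have h2pi : 0 < (2 * Real.pi) ^ (k + 1) := by positivity
  refine ⟨C2 * C1 / (2 * Real.pi) ^ (k + 1), by positivity, ?_⟩
  intro A ν hν hort lam T ρ hlam hT hρ s a hs hs2
  obtain ⟨e, hfr, hA⟩ := hFRM k A ν hν hort
  have hlog : 0 ≤ Real.log (2 + T) := Real.log_nonneg (by linarith)
  let Y : (Fin (k + 1) → ℤ) → EuclideanSpace ℝ (Fin k) :=
    fun n => WithLp.toLp 2 (fun j => ∑ i, e j i * (n i : ℝ))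
  have hY : ∀ n j, Y n j = ∑ i, e j i * (n i : ℝ) := fun n j => rfl
  let a' : (Fin (k + 1) → ℤ) → ℂ :=
    fun n => a n * Complex.exp (Complex.I * ((∑ i, (n i : ℝ) * (A 0) i : ℝ) : ℂ))
  have ha' : ∀ n, ‖a' n‖ = ‖a n‖ := by
    intro n
    simp only [a', norm_mul]
    rw [mul_comm Complex.I, Complex.norm_exp_ofReal_mul_I, mul_one]
  have hwave : ∀ z : EuclideanSpace ℝ (Fin k), wave s a (fun i => (A z) i)
      = ∑ n ∈ s, a' n * Complex.exp (Complex.I * ((∑ j, Y n j * z j : ℝ) : ℂ)) := by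
    intro z
    unfold wave
    refine Finset.sum_congr rfl ?_
    intro n _
    simp only [a', hY]
    rw [hA z (fun i => (n i : ℝ)), mul_assoc, ← Complex.exp_add]
    congr 2
    push_cast
    ring
  have hK := h2 (Fin (k + 1) → ℤ) s Y (C1 * Real.log (2 + T) ^ k) (by positivity)
    (by
      intro q
      have := h1 (fun i => ν i) e hfr T lam hT hlam s hs hs2 q
      simpa only [hY] using this) a' ρ hρ
  have hint : ∫ z in Metric.closedBall (0 : EuclideanSpace ℝ (Fin k)) ρ, ‖wave s a (fun i => (A z) i)‖ ^ 2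
      = ∫ z in Metric.closedBall (0 : EuclideanSpace ℝ (Fin k)) ρ,
        ‖∑ n ∈ s, a' n * Complex.exp (Complex.I * ((∑ j, Y n j * z j : ℝ) : ℂ))‖ ^ 2 := by
    refine integral_congr_ae ?_
    filter_upwards with z
    rw [hwave z]
  rw [hint, hPAR]
  refine hK.trans (le_of_eq ?_)
  have hsum : ∑ n ∈ s, ‖a' n‖ ^ 2 = ∑ n ∈ s, ‖a n‖ ^ 2 :=
    Finset.sum_congr rfl (fun n _ => by rw [ha' n])
  rw [hsum]
  field_simp

end Pool.Agent.Lib.MP_a8dae7_an.FP
end

section
set_option autoImplicit false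

/-!
# SEP: words with nonzero determinant (helper93)
-/

open scoped BigOperators

namespace Pool.Agent.Lib.MP_a8dae7_an.FP

namespace SEPM

/-- an integer `q` with `p ↦ ∑ q^i ξ i p` injective -/
lemma exq {N d : ℕ} {ξ : Fin d → Fin N → ℤ} (h : ∀ p p', (∀ i, ξ i p = ξ i p') → p = p') :
    ∃ q : ℤ, Function.Injective (fun p : Fin N => ∑ i : Fin d, q ^ (i : ℕ) * ξ i p) := by
  classical
  let P : Fin N × Fin N → Polynomial ℤ := fun z =>
    ∑ i : Fin d, Polynomial.monomial (i : ℕ) (ξ i z.1 - ξ i z.2)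
  have hP : ∀ z : Fin N × Fin N, z.1 ≠ z.2 → P z ≠ 0 := by
    intro z hz h0
    apply hz
    apply h
    intro i
    have h1 : (P z).coeff (i : ℕ) = ξ i z.1 - ξ i z.2 := by
      simp only [P, Polynomial.finsetSum_coeff, Polynomial.coeff_monomial]
      rw [Finset.sum_eq_single i]
      · rw [if_pos rfl]
      · intro j _ hj
        rw [if_neg (fun e => hj (Fin.ext e))]
      · intro hi
        exact absurd (Finset.mem_univ i) hi
    rw [h0, Polynomial.coeff_zero] at h1
    linarith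
  have hQ : ∏ z ∈ (Finset.univ : Finset (Fin N)).offDiag, P z ≠ 0 := by
    rw [Finset.prod_ne_zero_iff]
    intro z hz
    exact hP z (Finset.mem_offDiag.1 hz).2.2
  have hex : ∃ q : ℤ, (∏ z ∈ (Finset.univ : Finset (Fin N)).offDiag, P z).eval q ≠ 0 := by
    by_contra hcon
    push Not at hcon
    exact hQ (Polynomial.funext fun q => by rw [hcon q, Polynomial.eval_zero])
  obtain ⟨q, hq⟩ := hex
  rw [Polynomial.eval_prod, Finset.prod_ne_zero_iff] at hq
  refine ⟨q, fun p p' hpp => ?_⟩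
  by_contra hne
  have h2 := hq (p, p') (Finset.mem_offDiag.2 ⟨Finset.mem_univ _, Finset.mem_univ _, hne⟩)
  apply h2
  simp only [P, Polynomial.eval_finsetSum, Polynomial.eval_monomial]
  have hpp' : ∑ i : Fin d, q ^ (i : ℕ) * ξ i p = ∑ i : Fin d, q ^ (i : ℕ) * ξ i p' := hpp
  have h3 : ∑ i : Fin d, (ξ i p - ξ i p') * q ^ (i : ℕ) =
      ∑ i : Fin d, q ^ (i : ℕ) * ξ i p - ∑ i : Fin d, q ^ (i : ℕ) * ξ i p' := by
    rw [← Finset.sum_sub_distrib]
    exact Finset.sum_congr rfl fun i _ => by ring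
  rw [h3, hpp', sub_self]

/-- the functions given by words -/
def words {N d : ℕ} (ξ : Fin d → Fin N → ℤ) : Set (Fin N → ℝ) :=
  {f | ∃ w : List (Fin d), f = fun p => (mono ξ w p : ℝ)}

lemma pw {N d : ℕ} (ξ : Fin d → Fin N → ℤ) (q : ℤ) (l : ℕ) :
    (fun p : Fin N => ((∑ i : Fin d, q ^ (i : ℕ) * ξ i p : ℤ) : ℝ) ^ l) ∈
      Submodule.span ℝ (words ξ) := by
  induction l with
  | zero =>
    apply Submodule.subset_span
    refine ⟨[], ?_⟩
    funext p
    simp [mono]
  | succ l ih =>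
    have key : ∀ f ∈ Submodule.span ℝ (words ξ),
        (fun p : Fin N => ((∑ i : Fin d, q ^ (i : ℕ) * ξ i p : ℤ) : ℝ) * f p) ∈
          Submodule.span ℝ (words ξ) := by
      intro f hf
      induction hf using Submodule.span_induction with
      | mem f hf =>
        obtain ⟨w, rfl⟩ := hf
        have e : (fun p : Fin N => ((∑ i : Fin d, q ^ (i : ℕ) * ξ i p : ℤ) : ℝ) * (mono ξ w p : ℝ))
            = ∑ i : Fin d, ((q : ℝ) ^ (i : ℕ)) • (fun p => (mono ξ (i :: w) p : ℝ)) := by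
          funext p
          rw [Finset.sum_apply]
          push_cast
          rw [Finset.sum_mul]
          refine Finset.sum_congr rfl fun i _ => ?_
          simp only [mono, List.map_cons, List.prod_cons, Pi.smul_apply, smul_eq_mul]
          push_cast
          ring
        rw [e]
        exact Submodule.sum_mem _ fun i _ =>
          Submodule.smul_mem _ _ (Submodule.subset_span ⟨i :: w, rfl⟩)
      | zero =>
        have e : (fun p : Fin N => ((∑ i : Fin d, q ^ (i : ℕ) * ξ i p : ℤ) : ℝ) *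
            (0 : Fin N → ℝ) p) = 0 := by
          funext p
          simp
        rw [e]
        exact Submodule.zero_mem _
      | add f g _ _ hf hg =>
        have e : (fun p : Fin N => ((∑ i : Fin d, q ^ (i : ℕ) * ξ i p : ℤ) : ℝ) * (f + g) p) =
            (fun p : Fin N => ((∑ i : Fin d, q ^ (i : ℕ) * ξ i p : ℤ) : ℝ) * f p) +
            (fun p : Fin N => ((∑ i : Fin d, q ^ (i : ℕ) * ξ i p : ℤ) : ℝ) * g p) := by
          funext p
          simp only [Pi.add_apply]
          ring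
        rw [e]
        exact Submodule.add_mem _ hf hg
      | smul c f _ hf =>
        have e : (fun p : Fin N => ((∑ i : Fin d, q ^ (i : ℕ) * ξ i p : ℤ) : ℝ) * (c • f) p) =
            c • (fun p : Fin N => ((∑ i : Fin d, q ^ (i : ℕ) * ξ i p : ℤ) : ℝ) * f p) := by
          funext p
          simp only [Pi.smul_apply, smul_eq_mul]
          ring
        rw [e]
        exact Submodule.smul_mem _ _ hf
    have h := key _ ih
    have e : (fun p : Fin N => ((∑ i : Fin d, q ^ (i : ℕ) * ξ i p : ℤ) : ℝ) ^ (l + 1)) =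
        fun p : Fin N => ((∑ i : Fin d, q ^ (i : ℕ) * ξ i p : ℤ) : ℝ) *
          ((∑ i : Fin d, q ^ (i : ℕ) * ξ i p : ℤ) : ℝ) ^ l := by
      funext p
      ring
    rw [e]
    exact h

end SEPM

open SEPM in
theorem specSEP (hSPN : SpecSPN) : SpecSEP := by
  intro N d ξ h
  obtain ⟨q, hq⟩ := exq h
  have hinj : Function.Injective (fun p : Fin N => ((∑ i : Fin d, q ^ (i : ℕ) * ξ i p : ℤ) : ℝ)) :=
    fun p p' e => hq (Int.cast_injective e)
  have hdet : (Matrix.of fun (p l : Fin N) =>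
      ((∑ i : Fin d, q ^ (i : ℕ) * ξ i p : ℤ) : ℝ) ^ (l : ℕ)).det ≠ 0 :=
    Matrix.det_vandermonde_ne_zero_iff.2 hinj
  obtain ⟨u, hu, hd⟩ := hSPN N (fun _ => words ξ)
    (fun l p => ((∑ i : Fin d, q ^ (i : ℕ) * ξ i p : ℤ) : ℝ) ^ (l : ℕ)) (fun l => pw ξ q l) hdet
  choose w hw using hu
  refine ⟨w, ?_⟩
  have e : (Matrix.of fun p l => (mono ξ (w l) p : ℝ)) = Matrix.of fun p l => u l p := by
    ext p l
    show (mono ξ (w l) p : ℝ) = u l p
    rw [hw l]
  rw [e]
  exact hd

end Pool.Agent.Lib.MP_a8dae7_an.FP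
end

section
/-!
# MP_a8dae7_an FP, module SPN: multilinearity of the determinant
-/
namespace Pool.Agent.Lib.MP_a8dae7_an.FP

namespace SPNM

theorem key (N : ℕ) (S : Fin N → Set (Fin N → ℝ)) (v : Fin N → (Fin N → ℝ))
    (hv : ∀ l, v l ∈ Submodule.span ℝ (S l))
    (hdet : Matrix.detRowAlternating (n := Fin N) (R := ℝ) v ≠ 0) (A : Finset (Fin N)) :
    ∃ u : Fin N → (Fin N → ℝ), (∀ l ∈ A, u l ∈ S l) ∧ (∀ l, l ∉ A → u l = v l) ∧
      Matrix.detRowAlternating (n := Fin N) (R := ℝ) u ≠ 0 := by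
  induction A using Finset.induction_on with
  | empty => exact ⟨v, by simp, fun l _ => rfl, hdet⟩
  | insert l0 A hl0 ih =>
    obtain ⟨u, h1, h2, h3⟩ := ih
    let L : (Fin N → ℝ) →ₗ[ℝ] ℝ :=
      (Matrix.detRowAlternating (n := Fin N) (R := ℝ)).toMultilinearMap.toLinearMap u l0
    have hL : L (v l0) ≠ 0 := by
      have h4 : L (v l0) = Matrix.detRowAlternating (n := Fin N) (R := ℝ)
          (Function.update u l0 (v l0)) := rfl
      rw [h4, ← h2 l0 hl0, Function.update_eq_self]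
      exact h3
    have hex : ∃ x ∈ S l0, L x ≠ 0 := by
      by_contra hcon
      apply hL
      have hle : Submodule.span ℝ (S l0) ≤ LinearMap.ker L := by
        rw [Submodule.span_le]
        intro x hx
        by_contra hne
        exact hcon ⟨x, hx, hne⟩
      exact hle (hv l0)
    obtain ⟨x, hx, hLx⟩ := hex
    refine ⟨Function.update u l0 x, ?_, ?_, hLx⟩
    · intro l hl
      rcases Finset.mem_insert.1 hl with rfl | hl
      · rw [Function.update_self]
        exact hx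
      · have hne : l ≠ l0 := fun h => hl0 (h ▸ hl)
        rw [Function.update_of_ne hne]
        exact h1 l hl
    · intro l hl
      have hne : l ≠ l0 := fun h => hl (by rw [h]; exact Finset.mem_insert_self _ _)
      rw [Function.update_of_ne hne]
      exact h2 l (fun h => hl (Finset.mem_insert_of_mem h))

theorem det_eq (N : ℕ) (v : Fin N → (Fin N → ℝ)) :
    (Matrix.of fun p l => v l p).det = Matrix.detRowAlternating (n := Fin N) (R := ℝ) v := by
  have h : (Matrix.of fun p l => v l p) = (Matrix.of v).transpose := rfl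
  rw [h, Matrix.det_transpose]
  rfl

end SPNM

open SPNM in
/-- SPN -/
theorem specSPN : SpecSPN := by
  intro N S v hv hdet
  rw [det_eq] at hdet
  obtain ⟨u, h1, -, h3⟩ := key N S v hv hdet Finset.univ
  exact ⟨u, fun l => h1 l (Finset.mem_univ l), by rw [det_eq]; exact h3⟩

end Pool.Agent.Lib.MP_a8dae7_an.FP
end

section
/-!
# TUB: count in the cells without condition on `t`
-/
open scoped BigOperators
open MeasureTheory

namespace Pool.Agent.Lib.MP_a8dae7_an.FP

namespace TUBM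

/-- every coordinate is at most the length -/
theorem abs_le_lam {k : ℕ} {t : ℝ} {y : Fin k → ℝ} {lam : ℝ} (hl : 0 ≤ lam)
    (h : lam ^ 2 = t ^ 2 + ∑ j, y j ^ 2) : |t| ≤ lam ∧ ∀ j, |y j| ≤ lam := by
  have h0 : 0 ≤ ∑ j, y j ^ 2 := Finset.sum_nonneg fun j _ => sq_nonneg _
  constructor
  · exact abs_le_of_sq_le_sq (by nlinarith) hl
  · intro j
    have h1 : y j ^ 2 ≤ ∑ j, y j ^ 2 :=
      Finset.single_le_sum (f := fun j => y j ^ 2) (fun i _ => sq_nonneg _) (Finset.mem_univ j)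
    exact abs_le_of_sq_le_sq (by nlinarith [sq_nonneg t]) hl

/-- the distance of the `t` coordinates -/
theorem dist_t {k : ℕ} (hk : 1 ≤ k) {t t' : ℝ} {y y' : Fin k → ℝ} {lam T : ℝ} (hl : 0 ≤ lam)
    (hT : 1 ≤ T) (h : lam ^ 2 = t ^ 2 + ∑ j, y j ^ 2) (h' : lam ^ 2 = t' ^ 2 + ∑ j, y' j ^ 2)
    (hm : lam ≤ T * max 1 |t|) (hm' : lam ≤ T * max 1 |t'|)
    (hy : ∀ j, |y j - y' j| ≤ 1 / (6 * k)) (hs : (0 ≤ t ∧ 0 ≤ t') ∨ (t < 0 ∧ t' < 0)) :
    |t - t'| ≤ 2 * T := by
  obtain ⟨a1, a2⟩ := abs_le_lam hl h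
  obtain ⟨b1, b2⟩ := abs_le_lam hl h'
  rcases le_or_gt lam T with hlt | hlt
  · have := abs_sub t t'
    calc |t - t'| ≤ |t| + |t'| := this
      _ ≤ 2 * T := by linarith
  · have hkpos : (0 : ℝ) < k := by exact_mod_cast hk
    have c1 : lam ≤ T * |t| := by
      rcases le_total 1 |t| with h1 | h1
      · rwa [max_eq_right h1] at hm
      · rw [max_eq_left h1] at hm; linarith
    have c2 : lam ≤ T * |t'| := by
      rcases le_total 1 |t'| with h1 | h1
      · rwa [max_eq_right h1] at hm'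
      · rw [max_eq_left h1] at hm'; linarith
    have hsum : |t + t'| = |t| + |t'| := by
      rcases hs with ⟨h1, h2⟩ | ⟨h1, h2⟩
      · rw [abs_of_nonneg h1, abs_of_nonneg h2, abs_of_nonneg (by linarith)]
      · rw [abs_of_neg h1, abs_of_neg h2, abs_of_neg (by linarith)]; ring
    have h3 : (t - t') * (t + t') = -∑ j, (y j - y' j) * (y j + y' j) := by
      have : ∑ j, (y j - y' j) * (y j + y' j) = ∑ j, y j ^ 2 - ∑ j, y' j ^ 2 := by
        rw [← Finset.sum_sub_distrib]
        exact Finset.sum_congr rfl fun j _ => by ring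
      rw [this]; nlinarith
    have h4 : |∑ j, (y j - y' j) * (y j + y' j)| ≤ lam / 3 := by
      calc |∑ j, (y j - y' j) * (y j + y' j)| ≤ ∑ j, |(y j - y' j) * (y j + y' j)| :=
            Finset.abs_sum_le_sum_abs _ _
        _ ≤ ∑ _j : Fin k, 1 / (6 * (k : ℝ)) * (2 * lam) := by
            apply Finset.sum_le_sum
            intro j _
            rw [abs_mul]
            apply mul_le_mul (hy j) _ (abs_nonneg _) (by positivity)
            calc |y j + y' j| ≤ |y j| + |y' j| := abs_add_le _ _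
              _ ≤ 2 * lam := by linarith [a2 j, b2 j]
        _ = lam / 3 := by
            rw [Finset.sum_const, Finset.card_univ, Fintype.card_fin, nsmul_eq_mul]
            field_simp; ring
    have h5 : |t - t'| * (|t| + |t'|) ≤ lam / 3 := by
      rw [← hsum, ← abs_mul, h3, abs_neg]; exact h4
    have hlam : 0 < lam := by linarith
    have h6 : 2 * lam ≤ T * (|t| + |t'|) := by nlinarith
    have h7 : |t - t'| * (2 * lam) ≤ T * (lam / 3) := by
      calc |t - t'| * (2 * lam) ≤ |t - t'| * (T * (|t| + |t'|)) :=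
            mul_le_mul_of_nonneg_left h6 (abs_nonneg _)
        _ = T * (|t - t'| * (|t| + |t'|)) := by ring
        _ ≤ T * (lam / 3) := mul_le_mul_of_nonneg_left h5 (by linarith)
    have h8 : |t - t'| * lam ≤ (2 * T) * lam := by nlinarith
    exact le_of_mul_le_mul_right h8 hlam

/-- the logarithms -/
theorem log_le {k : ℕ} (hk : 1 ≤ k) {T : ℝ} (hT : 1 ≤ T) :
    Real.log (2 + 12 * k * T) ≤ (1 + Real.log (12 * k)) * Real.log (2 + T) := by
  have hk' : (1 : ℝ) ≤ k := by exact_mod_cast hk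
  have h1 : 1 ≤ Real.log (2 + T) := by
    rw [Real.le_log_iff_exp_le (by linarith)]
    have := Real.exp_one_lt_d9
    linarith
  have h2 : Real.log (2 + 12 * k * T) ≤ Real.log ((12 * k) * (2 + T)) := by
    apply Real.log_le_log (by positivity)
    nlinarith
  rw [Real.log_mul (by positivity) (by positivity)] at h2
  have h3 : 0 ≤ Real.log (12 * (k : ℝ)) := Real.log_nonneg (by linarith)
  nlinarith

end TUBM

open TUBM in
theorem specTUB (hCEL : SpecCEL) : SpecTUB := by
  intro k hk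
  obtain ⟨C, hC, H⟩ := hCEL k hk
  have hk' : (1 : ℝ) ≤ k := by exact_mod_cast hk
  have h3 : 0 ≤ Real.log (12 * (k : ℝ)) := Real.log_nonneg (by linarith)
  refine ⟨2 * (C * (1 + Real.log (12 * k)) ^ k), by positivity, ?_⟩
  intro ν e hf T lam hT hl s hs hm q
  set F := s.filter fun n => ∀ j, ⌊6 * (k : ℝ) * ∑ i, e j i * (n i : ℝ)⌋ = q j with hF
  have hT' : 1 ≤ 12 * k * T := by nlinarith
  -- the condition on y
  have hy : ∀ n ∈ F, ∀ m ∈ F, ∀ j,
      |∑ i, e j i * (n i : ℝ) - ∑ i, e j i * (m i : ℝ)| ≤ 1 / (6 * k) := by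
    intro n hn m hmF j
    have e1 := (Finset.mem_filter.1 hn).2 j
    have e2 := (Finset.mem_filter.1 hmF).2 j
    have := Int.abs_sub_lt_one_of_floor_eq_floor (e1.trans e2.symm)
    rw [← mul_sub, abs_mul, abs_of_nonneg (by positivity)] at this
    rw [le_div_iff₀ (by positivity), mul_comm]
    exact this.le
  have hsub : ∀ (c : Fin (k + 1) → ℝ) (n m : Fin (k + 1) → ℤ),
      ∑ i, c i * ((n i : ℝ) - m i) = ∑ i, c i * (n i : ℝ) - ∑ i, c i * (m i : ℝ) := by
    intro c n m
    rw [← Finset.sum_sub_distrib]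
    exact Finset.sum_congr rfl fun i _ => by ring
  have key : ∀ G ⊆ F, (∀ n ∈ G, ∀ m ∈ G, (0 ≤ ∑ i, ν i * (n i : ℝ) ∧ 0 ≤ ∑ i, ν i * (m i : ℝ)) ∨
      (∑ i, ν i * (n i : ℝ) < 0 ∧ ∑ i, ν i * (m i : ℝ) < 0)) →
      (G.card : ℝ) ≤ C * (1 + Real.log (12 * k)) ^ k * Real.log (2 + T) ^ k := by
    intro G hG hsg
    have hGs : ∀ n ∈ G, n ∈ s := fun n hn => (Finset.mem_filter.1 (hG hn)).1
    have h1 := H ν e hf (12 * k * T) lam hT' G (fun n hn => hs n (hGs n hn))
      (fun n hn m hmm j => by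
        rw [hsub]; exact hy n (hG hn) m (hG hmm) j)
      (fun n hn m hmm => by
        rw [hsub]
        have h2 := dist_t hk hl hT
          ((hs n (hGs n hn)).symm.trans (hf.pars fun i => (n i : ℝ)))
          ((hs m (hGs m hmm)).symm.trans (hf.pars fun i => (m i : ℝ)))
          (hm n (hGs n hn)) (hm m (hGs m hmm)) (hy n (hG hn) m (hG hmm)) (hsg n hn m hmm)
        calc _ ≤ 2 * T := h2
          _ = 12 * k * T * (1 / (6 * k)) := by field_simp; ring)
    calc (G.card : ℝ) ≤ C * Real.log (2 + 12 * k * T) ^ k := h1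
      _ ≤ C * ((1 + Real.log (12 * k)) * Real.log (2 + T)) ^ k := by
          apply mul_le_mul_of_nonneg_left _ hC.le
          exact pow_le_pow_left₀ (Real.log_nonneg (by nlinarith)) (log_le hk hT) k
      _ = _ := by rw [mul_pow]; ring
  have hsplit := Finset.card_filter_add_card_filter_not (s := F)
    (fun n : Fin (k + 1) → ℤ => 0 ≤ ∑ i, ν i * (n i : ℝ))
  have k1 := key (F.filter fun n => 0 ≤ ∑ i, ν i * (n i : ℝ)) (Finset.filter_subset _ _)
    (fun n hn m hmm => Or.inl ⟨(Finset.mem_filter.1 hn).2, (Finset.mem_filter.1 hmm).2⟩)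
  have k2 := key (F.filter fun n => ¬ 0 ≤ ∑ i, ν i * (n i : ℝ)) (Finset.filter_subset _ _)
    (fun n hn m hmm => Or.inr ⟨not_le.1 (Finset.mem_filter.1 hn).2,
      not_le.1 (Finset.mem_filter.1 hmm).2⟩)
  have : (F.card : ℝ) = ((F.filter fun n => 0 ≤ ∑ i, ν i * (n i : ℝ)).card : ℝ)
      + ((F.filter fun n => ¬ 0 ≤ ∑ i, ν i * (n i : ℝ)).card : ℝ) := by
    rw [← hsplit]; push_cast; rfl
  rw [this]
  linarith

end Pool.Agent.Lib.MP_a8dae7_an.FP
end

section
namespace Pool.Agent.Lib.MP_a8dae7_an.FP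

theorem allDET : SpecDET := specDET specEXP specHOM specSPN (specSEP specSPN)

theorem allCEL : SpecCEL := specCEL allDET specCNT

theorem main : SpecMAIN := specMAIN (specTUB allCEL) (specGAU specGA1 specGA2) specPAR specFRM

end Pool.Agent.Lib.MP_a8dae7_an.FP
end
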