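import Mathlib

/-!
# MP_a8dae7_an: flat hypersurfaces, Specs (paper: /team-store/MP_a8dae7_an_FLAT.md)

Target: the trace inequality for every flat piece of `T^(k+1)`, every direction, up to `(log λ)^k`.
-/

open scoped BigOperators
open MeasureTheory

namespace Pool.Agent.Lib.MP_a8dae7_an.FP

/-- the finite exponential sum `∑ a_n e^{i n·x}` (an element of the span of the exponentials) -/
noncomputable def wave {d : ℕ} (s : Finset (Fin d → ℤ)) (a : (Fin d → ℤ) → ℂ) (x : Fin d → ℝ) : ℂ :=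
  ∑ n ∈ s, a n * Complex.exp (Complex.I * ((∑ i, (n i : ℝ) * x i : ℝ) : ℂ))

/-- monomial of a word in the integer functions `ξ i` -/
def mono {P : Type} {d : ℕ} (ξ : Fin d → P → ℤ) (w : List (Fin d)) (p : P) : ℤ :=
  (w.map (fun i => ξ i p)).prod

/-- `t^i y^γ` with `i ∈ {0,1}` (`true` means `i = 1`) -/
noncomputable def gmon {P : Type} {k : ℕ} (t : P → ℝ) (y : Fin k → P → ℝ)
    (g : Bool × (Fin k → ℕ)) (p : P) : ℝ :=
  (if g.1 = true then t p else 1) * ∏ j, y j p ^ g.2 j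

/-- degree of `t^i y^γ` -/
def gdeg {k : ℕ} (g : Bool × (Fin k → ℕ)) : ℕ :=
  (if g.1 = true then 1 else 0) + ∑ j, g.2 j

/-- EXP. Expansion of the monomial of a word in the functions `t^i y^γ`: degrees at most the length of the
word, and the `ℓ¹` norm of the part of top degree is at most `(2k)^length` (the numbers `α`, `β` are arbitrary).
Proof: induction on `w`. Empty word: `c` is the indicator of `(false, 0)`. Step: `ξ i = ν i t + ∑ e j i y j`;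
`y j * gmon (b,γ) = gmon (b, γ + e_j)`; `t * gmon (false,γ) = gmon (true,γ)`;
`t * gmon (true,γ) = t² y^γ = -∑ y_j² y^γ + α gmon (true,γ) + ∑ β_j gmon (false, γ+e_j)`; here the first `k` terms have
degree `deg + 1` and the others degree at most `deg`. The top part is multiplied in `ℓ¹` by at most
`k |ν i| + ∑_j |e j i| ≤ 2 k`. (Suggestion: prove first that the property
`Rep a f M := ∃ S c, (∀ g ∈ S, gdeg g ≤ a) ∧ f = ∑ g ∈ S, c g * gmon t y g ∧ ∑ g ∈ S with gdeg g = a, |c g| ≤ M`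
is stable under sums (`M + M'`), real multiples, `a ≤ a + 1` with `M = 0`, and holds for `gmon g` with `M = 1`.) -/
def SpecEXP : Prop :=
  ∀ (P : Type) (k : ℕ) (_ : 1 ≤ k) (t : P → ℝ) (y : Fin k → P → ℝ) (ξ : Fin (k + 1) → P → ℤ)
    (ν : Fin (k + 1) → ℝ) (e : Fin k → Fin (k + 1) → ℝ) (α : ℝ) (β : Fin k → ℝ),
    (∀ i, |ν i| ≤ 1) → (∀ j i, |e j i| ≤ 1) →
    (∀ i p, (ξ i p : ℝ) = ν i * t p + ∑ j, e j i * y j p) →
    (∀ p, t p ^ 2 = -∑ j, y j p ^ 2 + α * t p + ∑ j, β j * y j p) →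
    ∀ w : List (Fin (k + 1)),
      ∃ (S : Finset (Bool × (Fin k → ℕ))) (c : Bool × (Fin k → ℕ) → ℝ),
        (∀ g ∈ S, gdeg g ≤ w.length) ∧
        (∀ p, (mono ξ w p : ℝ) = ∑ g ∈ S, c g * gmon t y g p) ∧
        ∑ g ∈ S with gdeg g = w.length, |c g| ≤ (2 * (k : ℝ)) ^ w.length

/-- HOM. `t^i y^γ` is a finite linear combination of monomials of words of length `deg`.
Proof: induction on the degree, `t` and `y j` are linear combinations of the `ξ i`; equivalently: the set of functions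
which are combinations of words of length `a` times a linear combination of the `ξ i` is in the set for `a + 1`. -/
def SpecHOM : Prop :=
  ∀ (P : Type) (k : ℕ) (t : P → ℝ) (y : Fin k → P → ℝ) (ξ : Fin (k + 1) → P → ℤ)
    (ν : Fin (k + 1) → ℝ) (e : Fin k → Fin (k + 1) → ℝ),
    (∀ p, t p = ∑ i, ν i * (ξ i p : ℝ)) →
    (∀ j p, y j p = ∑ i, e j i * (ξ i p : ℝ)) →
    ∀ g : Bool × (Fin k → ℕ),
      gmon t y g ∈ Submodule.span ℝ
        {f : P → ℝ | ∃ w : List (Fin (k + 1)), w.length = gdeg g ∧ f = fun p => (mono ξ w p : ℝ)}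

/-- SPN. Multilinearity: if a determinant with columns in the spans of sets is nonzero, then there are
elements of the sets with nonzero determinant. Proof: induction over the finset of columns already replaced
(or: if all determinants with columns in the sets vanish then, by `Submodule.span_induction` column by column, all
determinants with columns in the spans vanish). `Matrix.of fun p l => v l p` has columns `v l`. -/
def SpecSPN : Prop :=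
  ∀ (N : ℕ) (S : Fin N → Set (Fin N → ℝ)) (v : Fin N → (Fin N → ℝ)),
    (∀ l, v l ∈ Submodule.span ℝ (S l)) →
    (Matrix.of fun p l => v l p).det ≠ 0 →
    ∃ u : Fin N → (Fin N → ℝ), (∀ l, u l ∈ S l) ∧ (Matrix.of fun p l => u l p).det ≠ 0

/-- SEP. If the integer functions `ξ i` separate the points of `Fin N` there are words with nonzero determinant.
Proof: take an integer `q` such that `ζ = ∑ q^i ξ i` is injective on `Fin N` (finitely many bad `q`: roots of the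
nonzero polynomials `∑ (ξ i p - ξ i p') X^i`). Vandermonde: `det (ζ p ^ l) ≠ 0`, and `ζ^l` is in the span of the
words of length `l`; then SPN. (Or: the words span a subalgebra of `Fin N → ℝ` separating the points.) -/
def SpecSEP : Prop :=
  ∀ (N d : ℕ) (ξ : Fin d → Fin N → ℤ), (∀ p p', (∀ i, ξ i p = ξ i p') → p = p') →
    ∃ w : Fin N → List (Fin d), (Matrix.of fun p l => (mono ξ (w l) p : ℝ)).det ≠ 0

/-- DET. Determinant lemma. Proof (from EXP, HOM, SPN, SEP): choose words `w l` with nonzero determinant and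
`∑ length` minimal (well founded; SEP for the existence). The determinant is an integer (`Int.cast` of the determinant of an
integer matrix) so its absolute value is at least `1`. Expand every column with EXP (multilinearity,
`MultilinearMap.map_sum_finset` for `Matrix.detRowAlternating` of the transpose): `D = ∑_φ ∏ c_l(φ l) det (gmon (φ l))`,
`φ l ∈ S_l`. If `det (gmon (φ l)) ≠ 0` then HOM and SPN give words with nonzero determinant and lengths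
`gdeg (φ l)`, so by minimality `∑ length (w l) ≤ ∑ gdeg (φ l)`, and `gdeg (φ l) ≤ length (w l)`: equality for all `l`.
Every `|det (gmon (φ l))| ≤ N! ∏ sup |gmon (φ l)| ≤ N! ∏ (T η^{gdeg (φ l)})`, so
`1 ≤ |D| ≤ N! T^N ∏ η^{length} ∏_l ∑_{g ∈ S_l, gdeg g = length} |c_l g| ≤ N! T^N (2kη)^{∑ length}`.
Since `D ≠ 0` one `φ` has `det ≠ 0`: it is injective (equal columns) and `gdeg (φ l) = length (w l)`. -/
def SpecDET : Prop :=
  ∀ (k : ℕ) (_ : 1 ≤ k) (N : ℕ) (t : Fin N → ℝ) (y : Fin k → Fin N → ℝ) (ξ : Fin (k + 1) → Fin N → ℤ)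
    (ν : Fin (k + 1) → ℝ) (e : Fin k → Fin (k + 1) → ℝ) (α : ℝ) (β : Fin k → ℝ) (T η : ℝ),
    (∀ i, |ν i| ≤ 1) → (∀ j i, |e j i| ≤ 1) →
    (∀ i p, (ξ i p : ℝ) = ν i * t p + ∑ j, e j i * y j p) →
    (∀ p, t p = ∑ i, ν i * (ξ i p : ℝ)) →
    (∀ j p, y j p = ∑ i, e j i * (ξ i p : ℝ)) →
    (∀ p, t p ^ 2 = -∑ j, y j p ^ 2 + α * t p + ∑ j, β j * y j p) →
    (∀ p p', (∀ i, ξ i p = ξ i p') → p = p') →
    1 ≤ T → 0 < η → η ≤ 1 → (∀ j p, |y j p| ≤ η) → (∀ p, |t p| ≤ T * η) →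
    ∃ φ : Fin N → Bool × (Fin k → ℕ), Function.Injective φ ∧
      1 ≤ (N.factorial : ℝ) * T ^ N * (2 * (k : ℝ) * η) ^ (∑ l, gdeg (φ l))

/-- CNT. Counting. Proof: `N = 4 m^k`, `m = ⌈C₀ log (2+T)⌉₊`. At most `2 m^k` elements `g` have `gdeg g < m`
(each `g.2 j < m`), so `∑ gdeg (φ l) ≥ m (N - 2 m^k) = m N / 2`. The inequality gives
`3^{∑ gdeg} ≤ N! T^N ≤ (N T)^N`, so `m/2 ≤ (m/2) log 3 ≤ log 4 + k log m + log T`; with
`log m ≤ m/(8k) - 1 + log (8k)` this is false if `C₀` is large (depending on `k`; `log (2+T) ≥ log 3 ≥ 1`). -/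
def SpecCNT : Prop :=
  ∀ (k : ℕ) (_ : 1 ≤ k), ∃ C : ℝ, 0 < C ∧ ∀ T : ℝ, 1 ≤ T → ∃ N : ℕ,
    (N : ℝ) ≤ C * Real.log (2 + T) ^ k ∧
    ∀ φ : Fin N → Bool × (Fin k → ℕ), Function.Injective φ →
      (N.factorial : ℝ) * T ^ N * (1 / 3 : ℝ) ^ (∑ l, gdeg (φ l)) < 1

/-- orthonormal frame of `ℝ^(k+1)`: one vector `ν` and `k` vectors `e j` (coordinates), with the completeness
relation, as real numbers -/
structure IsFrame {k : ℕ} (ν : Fin (k + 1) → ℝ) (e : Fin k → Fin (k + 1) → ℝ) : Prop where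
  nn : ∑ i, ν i ^ 2 = 1
  ee : ∀ j j', ∑ i, e j i * e j' i = if j = j' then 1 else 0
  ne : ∀ j, ∑ i, ν i * e j i = 0
  comp : ∀ (x : Fin (k + 1) → ℝ) (i : Fin (k + 1)),
    x i = ν i * (∑ l, ν l * x l) + ∑ j, e j i * (∑ l, e j l * x l)
  pars : ∀ x : Fin (k + 1) → ℝ,
    ∑ i, x i ^ 2 = (∑ l, ν l * x l) ^ 2 + ∑ j, (∑ l, e j l * x l) ^ 2

/-- CEL. Cell count. Proof (from DET, CNT): let `C` be the constant of CNT and `N` its number for `T`. If `s` has at least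
`N` elements choose `N` of them, `x : Fin N ↪ s`, and a base point `x₀ = x 0` (if `N = 0` then `φ` empty contradicts CNT: `1 < 1`).
`ξ i p = x p i - x₀ i`, `t p = ∑ ν l ξ l p`, `y j p = ∑ e j l ξ l p`; `η = 1/(6k)`. The relation (Q):
`∑ ξ_i² = -2 ∑ ξ_i x₀_i` (both points are on the sphere), and by `pars` and `comp` (polarized)
`t² + ∑ y_j² = -2 (t t₀ + ∑ y_j y⁰_j)`. `|ν i|, |e j i| ≤ 1` from `nn`, `ee`. DET gives `φ` with
`1 ≤ N! T^N (1/3)^{∑ gdeg}`: contradiction. -/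
def SpecCEL : Prop :=
  ∀ (k : ℕ) (_ : 1 ≤ k), ∃ C : ℝ, 0 < C ∧ ∀ (ν : Fin (k + 1) → ℝ) (e : Fin k → Fin (k + 1) → ℝ),
    IsFrame ν e → ∀ (T lam : ℝ), 1 ≤ T → ∀ s : Finset (Fin (k + 1) → ℤ),
      (∀ n ∈ s, ∑ i, (n i : ℝ) ^ 2 = lam ^ 2) →
      (∀ n ∈ s, ∀ m ∈ s, ∀ j, |∑ i, e j i * ((n i : ℝ) - m i)| ≤ 1 / (6 * k)) →
      (∀ n ∈ s, ∀ m ∈ s, |∑ i, ν i * ((n i : ℝ) - m i)| ≤ T * (1 / (6 * k))) →
      (s.card : ℝ) ≤ C * Real.log (2 + T) ^ k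

/-- TUB. Count in the cells `⌊6k y_j(n)⌋ = q_j` without condition on `t`. Proof (from CEL with `T' = 12 k T`,
`log (2 + 12kT) ≤ C log (2+T)`): split the cell into the part with `t_n ≥ 0` and the part with `t_n < 0`; in one part
`|y_j(n) - y_j(m)| ≤ 1/(6k)` and `|t_n - t_m| ≤ 2T`: if `lam ≤ T` because `|t_n| ≤ lam`; if `T < lam` then
`|t_n|, |t_m| ≥ lam/T` with the same sign and
`|t_n - t_m| (|t_n| + |t_m|) = |t_n² - t_m²| = | |y_n|² - |y_m|² | ≤ |y_n - y_m| |y_n + y_m| ≤ (1/6) (2 lam)`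
(`|y_n - y_m|² ≤ k/(36k²)`), so `|t_n - t_m| ≤ T`. -/
def SpecTUB : Prop :=
  ∀ (k : ℕ) (_ : 1 ≤ k), ∃ C : ℝ, 0 < C ∧ ∀ (ν : Fin (k + 1) → ℝ) (e : Fin k → Fin (k + 1) → ℝ),
    IsFrame ν e → ∀ (T lam : ℝ), 1 ≤ T → 0 ≤ lam → ∀ s : Finset (Fin (k + 1) → ℤ),
      (∀ n ∈ s, ∑ i, (n i : ℝ) ^ 2 = lam ^ 2) →
      (∀ n ∈ s, lam ≤ T * max 1 |∑ i, ν i * (n i : ℝ)|) →
      ∀ q : Fin k → ℤ,
        (((s.filter fun n => ∀ j, ⌊6 * (k : ℝ) * ∑ i, e j i * (n i : ℝ)⌋ = q j).card : ℕ) : ℝ)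
          ≤ C * Real.log (2 + T) ^ k

/-- GA1. Gaussian majorant. Proof: `1 ≤ e · exp(-‖z‖²/ρ²)` on the ball, expand the square
(`‖w‖² = re (w * conj w)`, finite sums), integrate termwise over the whole space:
`∫ exp(-‖z‖²/ρ² + i⟨Y_n - Y_m, z⟩) = (π ρ²)^(k/2) exp(-ρ² ‖Y_n - Y_m‖²/4)`
(`GaussianFourier.integral_cexp_neg_mul_sq_norm_add`), and `ρ ≥ 1`. -/
def SpecGA1 : Prop :=
  ∀ (k : ℕ), ∃ C : ℝ, 0 < C ∧ ∀ (ι : Type) (s : Finset ι) (Y : ι → EuclideanSpace ℝ (Fin k)) (a : ι → ℂ)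
    (ρ : ℝ), 1 ≤ ρ →
    ∫ z in Metric.closedBall (0 : EuclideanSpace ℝ (Fin k)) ρ,
        ‖∑ n ∈ s, a n * Complex.exp (Complex.I * ((∑ j, Y n j * z j : ℝ) : ℂ))‖ ^ 2
      ≤ C * ρ ^ k * ∑ n ∈ s, ∑ m ∈ s, ‖a n‖ * ‖a m‖ * Real.exp (-(‖Y n - Y m‖ ^ 2) / 4)

/-- GA2. Schur sum. Proof: fix `n`; for `m` in the cell `q = ⌊6k Y m⌋` and `q₀ = ⌊6k Y n⌋` one has
`|Y m j - Y n j| ≥ (|q j - q₀ j| - 1)/(6k)`, so `exp(-‖Y n - Y m‖²/4) ≤ ∏_j C exp(-|q j - q₀ j|)` with `C = C(k)`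
(`exp(-(r-1)²/(144k²)) ≤ C exp(-r)`), and `∑_{q ∈ Q} ∏_j exp(-|q j - q₀ j|) ≤ (∑_{r ∈ ℤ} exp(-|r|))^k` for the finite set `Q` of
occupied cells (contained in a product of finite sets, `Finset.prod_univ_sum`). Each cell has at most `K` elements. -/
def SpecGA2 : Prop :=
  ∀ (k : ℕ) (_ : 1 ≤ k), ∃ C : ℝ, 0 < C ∧ ∀ (ι : Type) (s : Finset ι) (Y : ι → EuclideanSpace ℝ (Fin k)) (K : ℝ),
    0 ≤ K →
    (∀ q : Fin k → ℤ, (((s.filter fun n => ∀ j, ⌊6 * (k : ℝ) * Y n j⌋ = q j).card : ℕ) : ℝ) ≤ K) →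
    ∀ n ∈ s, ∑ m ∈ s, Real.exp (-(‖Y n - Y m‖ ^ 2) / 4) ≤ C * K

/-- GAU. Proof (from GA1, GA2): Schur: `‖a n‖ ‖a m‖ ≤ (‖a n‖² + ‖a m‖²)/2` and symmetry of the kernel. -/
def SpecGAU : Prop :=
  ∀ (k : ℕ) (_ : 1 ≤ k), ∃ C : ℝ, 0 < C ∧ ∀ (ι : Type) (s : Finset ι) (Y : ι → EuclideanSpace ℝ (Fin k)) (K : ℝ),
    0 ≤ K →
    (∀ q : Fin k → ℤ, (((s.filter fun n => ∀ j, ⌊6 * (k : ℝ) * Y n j⌋ = q j).card : ℕ) : ℝ) ≤ K) →
    ∀ (a : ι → ℂ) (ρ : ℝ), 1 ≤ ρ →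
    ∫ z in Metric.closedBall (0 : EuclideanSpace ℝ (Fin k)) ρ,
        ‖∑ n ∈ s, a n * Complex.exp (Complex.I * ((∑ j, Y n j * z j : ℝ) : ℂ))‖ ^ 2
      ≤ C * ρ ^ k * K * ∑ n ∈ s, ‖a n‖ ^ 2

/-- PAR. Parseval on the cube `[0,2π]^d`. Proof: expand the square; `∫ ∏_i exp(i (n_i - m_i) x_i) = ∏_i ∫_0^{2π}`
(`MeasureTheory.integral_fintype_prod_eq_prod` for the product of the restricted measures). -/
def SpecPAR : Prop :=
  ∀ (d : ℕ) (s : Finset (Fin d → ℤ)) (a : (Fin d → ℤ) → ℂ),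
    ∫ x in Set.pi Set.univ (fun _ : Fin d => Set.Icc (0 : ℝ) (2 * Real.pi)), ‖wave s a x‖ ^ 2
      = (2 * Real.pi) ^ d * ∑ n ∈ s, ‖a n‖ ^ 2

/-- FRM. The frame of an affine isometry with unit normal `ν`: `e j = A.linear (basis vector j)`. Then `(ν, e)` is an
orthonormal basis of `ℝ^(k+1)` and `n · A z = n · A 0 + ∑_j (e j · n) z j`.
Proof: `A.linearIsometry` maps the standard orthonormal basis to an orthonormal family; with `ν` it is an orthonormal family of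
`k + 1` vectors, hence a basis (`OrthonormalBasis.mk` or `basisOfOrthonormalOfCardEqFinrank`); `comp` and `pars` are
`OrthonormalBasis.sum_repr` and `OrthonormalBasis.sum_sq_norm_inner` in coordinates. -/
def SpecFRM : Prop :=
  ∀ (k : ℕ) (A : EuclideanSpace ℝ (Fin k) →ᵃⁱ[ℝ] EuclideanSpace ℝ (Fin (k + 1)))
    (ν : EuclideanSpace ℝ (Fin (k + 1))), ‖ν‖ = 1 →
    (∀ v : EuclideanSpace ℝ (Fin k), inner ℝ ν (A.linearIsometry v) = 0) →
    ∃ e : Fin k → Fin (k + 1) → ℝ, IsFrame (fun i => ν i) e ∧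
      ∀ (z : EuclideanSpace ℝ (Fin k)) (n : Fin (k + 1) → ℝ),
        ∑ i, n i * (A z) i = (∑ i, n i * (A 0) i) + ∑ j, (∑ i, e j i * n i) * z j

/-- MAIN: the trace inequality (assembly from TUB, GAU, PAR, FRM: `Y n j = ∑ e j i n i`, coefficients
`a n * exp (i n · A 0)`, whose absolute value is `‖a n‖`). -/
def SpecMAIN : Prop :=
  ∀ (k : ℕ) (_ : 1 ≤ k), ∃ C : ℝ, 0 < C ∧
    ∀ (A : EuclideanSpace ℝ (Fin k) →ᵃⁱ[ℝ] EuclideanSpace ℝ (Fin (k + 1)))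
      (ν : EuclideanSpace ℝ (Fin (k + 1))), ‖ν‖ = 1 →
      (∀ v : EuclideanSpace ℝ (Fin k), inner ℝ ν (A.linearIsometry v) = 0) →
      ∀ (lam T ρ : ℝ), 0 ≤ lam → 1 ≤ T → 1 ≤ ρ →
      ∀ (s : Finset (Fin (k + 1) → ℤ)) (a : (Fin (k + 1) → ℤ) → ℂ),
        (∀ n ∈ s, ∑ i, (n i : ℝ) ^ 2 = lam ^ 2) →
        (∀ n ∈ s, lam ≤ T * max 1 |∑ i, ν i * (n i : ℝ)|) →
        ∫ z in Metric.closedBall (0 : EuclideanSpace ℝ (Fin k)) ρ, ‖wave s a (fun i => (A z) i)‖ ^ 2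
          ≤ C * ρ ^ k * Real.log (2 + T) ^ k *
            ∫ x in Set.pi Set.univ (fun _ : Fin (k + 1) => Set.Icc (0 : ℝ) (2 * Real.pi)), ‖wave s a x‖ ^ 2

end Pool.Agent.Lib.MP_a8dae7_an.FP
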